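import Pool.Agent.Y190.SN.Pt

/-!
The conditions of the conjectures of Green, Griffiths and Lang for the subvarieties of any dimension
whose generic point is simple.
-/

set_option autoImplicit false

set_option linter.unusedSectionVars false

open Filter Topology Set Metric

namespace Pool.Agent.Y190.SP

open FF Pool.Agent.W603.BP Pool.Agent.W601.PH Pool.Agent.Y190.BV Pool.Agent.W603.LV
  Pool.Agent.W602.GT Pool.Agent.Y190.AN Pool.Agent.H159R3.GGLLog Pool.Agent.H159R3.NV
  Pool.Agent.Y190.QP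

section alg

variable {k : Type} [Field k] [IsAlgClosed k] [CharZero k] {N n m w : ℕ} {ι : Type}
  {K : Type} [Field K] [Algebra k K]

/-- the points off a certain form are simple -/
theorem exists_simple_pt (hm : 1 ≤ m) (hn : n ≤ N) {a : Fin (N + 1) → k}
    (ha : Function.Injective a) {U : Set (Fin (N + 1))} {F : ι → MvPolynomial (Fin (N + 1)) k}
    (hsub : ConeU U F ⊆ Cone (buchi a n m)) {y : Fin (N + 1) → K} (hy : SubVarU U F K w y)
    (hgen : ∀ G : MvPolynomial (Fin (N + 1)) k, IsForm G →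
      (val y G = 0 ↔ ∀ x ∈ ConeU U F, val x G = 0))
    (hs : SN.Simple m (intp a hn (fun i => y i ^ m))) :
    ∃ Gs : MvPolynomial (Fin (N + 1)) k, IsForm Gs ∧ val y Gs ≠ 0 ∧
      ∀ (M : Type) [Field M] [Algebra k M] (x : Fin (N + 1) → M), x ≠ 0 → (∀ j ∈ U, x j ≠ 0) →
        (∀ e, val x (F e) = 0) → val x Gs ≠ 0 → SN.Simple m (intp a hn (fun i => x i ^ m)) := by
  have hchK : CharZero K := charZero_of_injective_algebraMap (algebraMap k K).injective
  obtain ⟨i0, hi0⟩ : ∃ i0, y i0 ≠ 0 := Function.ne_iff.1 hy.ne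
  have hyb : ∀ l : Rel a n, val y (buchi a n m l) = 0 := sub_extU hsub hy.ne hy.unit hy.mem
  have hH : intp a hn (fun i => y i ^ m) ≠ 0 := by
    intro h0
    have h1 := intp_eval ha hn m hyb i0
    rw [h0, Polynomial.eval_zero] at h1
    exact hi0 (eq_zero_of_pow_eq_zero h1.symm)
  obtain ⟨G, hG, hGy, hGx⟩ := SN.exists_simple hm hn hi0 hy.gen hH hs ∅
  refine ⟨G, hG, hGy, fun M _ _ x hx hxU hxF hxG => (hGx M x (fun G' hG' hyG' => ?_) hxG).2.1⟩
  exact val_of_cone hx hxU hxF ((hgen G' hG').1 hyG')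

/-- a point over an extension with the structure of a cone: the forms which vanish on the lines
vanish -/
theorem vanish_str {a : Fin (N + 1) → k} (ha : Function.Injective a)
    {U : Set (Fin (N + 1))} {j1 j2 : Fin (N + 1)} (hU : ∀ j ∈ U, j = j1 ∨ j = j2)
    {F : ι → MvPolynomial (Fin (N + 1)) k} (hF : ∀ e, IsForm (F e)) {y z : Fin (N + 1) → K}
    {t : K} (hyU : ∀ j ∈ U, y j ≠ 0) (hyF : ∀ e, val y (F e) = 0)
    (hyz : ∀ i, y i = (algebraMap k K (a i) - t) * z i)
    (hz : ∃ i j, i ≠ j ∧ z i ≠ 0 ∧ z j ≠ 0) (htr : Transcendental (coords k z) t)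
    {G : MvPolynomial (Fin (N + 1)) k}
    (hL : ∀ a b, GmLine U F a b → ∀ c c' : k, c ≠ 0 → c' ≠ 0 → val (c • a + c' • b) G = 0) :
    val y G = 0 := by
  have hchK : CharZero K := charZero_of_injective_algebraMap (algebraMap k K).injective
  have hinfK : Infinite K := inferInstance
  obtain ⟨i, j, hij, hi, hj⟩ := hz
  exact vanish_gm hU y z hyU ⟨i, j, wedge_ne ha hyz hij hi hj⟩
    (fun c c' e => line_vanish hyz hi htr (hF e) (hyF e) c c') hL

omit [CharZero k] in
theorem cone_ne {U : Set (Fin (N + 1))} {F : ι → MvPolynomial (Fin (N + 1)) k}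
    {y : Fin (N + 1) → K} (hgen : ∀ G : MvPolynomial (Fin (N + 1)) k, IsForm G →
      (val y G = 0 ↔ ∀ x ∈ ConeU U F, val x G = 0)) : (ConeU U F).Nonempty := by
  by_contra hcon
  rw [Set.not_nonempty_iff_eq_empty] at hcon
  have h2 := (hgen 1 ⟨0, MvPolynomial.isHomogeneous_one _ _⟩).2 (by
    intro x hx
    rw [hcon] at hx
    exact absurd hx (Set.notMem_empty x))
  unfold val at h2
  rw [map_one] at h2
  exact one_ne_zero h2

/-- the lines are not of log general type -/
theorem spL_sub_alg {U : Set (Fin (N + 1))} (F : ι → MvPolynomial (Fin (N + 1)) k) :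
    SpL U F ⊆ SpAlgU U F := by
  rintro x ⟨hx, h⟩
  refine ⟨hx, fun G hG hA => h G hG ?_⟩
  intro a' b' hab c c' hc hc'
  obtain ⟨y, hy, hgt, hyG⟩ := gm_subvar hab
  have h1 := hyG G (hA _ 1 y le_rfl hy hgt) (c' / c) (div_ne_zero hc' hc)
  obtain ⟨d, hd⟩ := hG
  have h2 := val_smul hd c (a' + (c' / c) • b')
  have e : (fun i => c * (a' + (c' / c) • b') i) = c • a' + c' • b' := by
    funext i
    simp only [Pi.add_apply, Pi.smul_apply, smul_eq_mul]
    field_simp
  rw [e, h1, mul_zero] at h2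
  exact h2

/-- **The algebraic part.** -/
theorem lang_simpleU (hm : 2 ≤ m) (hn : n ≤ N) (hN : 4 * n + (n + 1) ^ 2 < 2 * (N + 1))
    {a : Fin (N + 1) → k} (ha : Function.Injective a) {U : Set (Fin (N + 1))}
    {F : ι → MvPolynomial (Fin (N + 1)) k} (hF : ∀ e, IsForm (F e))
    (hsub : ConeU U F ⊆ Cone (buchi a n m))
    {y : Fin (N + 1) → K} (hy : SubVarU U F K w y)
    (hgen : ∀ G : MvPolynomial (Fin (N + 1)) k, IsForm G →
      (val y G = 0 ↔ ∀ x ∈ ConeU U F, val x G = 0))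
    (hs : SN.Simple m (intp a hn (fun i => y i ^ m))) :
    [LogGeneralType k K w (OffU U y), SpAlgU U F ≠ ConeU U F, SpL U F ≠ ConeU U F,
      3 ≤ U.ncard ∨ ¬ Ruled k K].TFAE := by
  classical
  have hyb : SubVar (buchi a n m) K w y :=
    ⟨hy.ne, sub_extU hsub hy.ne hy.unit hy.mem, hy.gen, hy.dim⟩
  obtain ⟨Gs, hGs, hGsy, hGsx⟩ := exists_simple_pt (by omega : 1 ≤ m) hn ha hsub hy hgen hs
  have hsp := spL_sub_alg (U := U) F
  have hsp2 : SpAlgU U F ⊆ ConeU U F := fun x hx => hx.1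
  tfae_have 1 → 4 := by
    intro h
    by_contra hcon
    push Not at hcon
    obtain ⟨hU3, C, s, hs', hstop⟩ := hcon
    rcases U_cases U with hj | ⟨j1, j2, hU⟩
    · exact absurd ((three_iff U).2 hj) (by omega)
    · obtain ⟨-, t, z, hyz, -, -, htr, htop⟩ :=
        SN.structure_thm hm hn hN ha hyb hs (not_gt_ruled hs' hstop w)
      exact not_lgt_str hU ha hyz hy.unit htr htop w h
  tfae_have 4 → 2 := by
    intro h heq
    rcases U_cases U with ⟨jj, hjj, hjU⟩ | ⟨j1, j2, hU⟩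
    · -- three punctures: the subvarieties which are not of log general type are not simple
      apply hGsy
      rw [hgen Gs hGs]
      intro x hx
      rw [← heq] at hx
      refine hx.2 Gs hGs fun K' _ _ w' x' _ hx' hgt => ?_
      by_contra hne
      have hs' := hGsx K' x' hx'.ne hx'.unit hx'.mem hne
      exact hgt (SN.lgt_threeS hm hn hN ha
        ⟨hx'.ne, sub_extU hsub hx'.ne hx'.unit hx'.mem, hx'.gen, hx'.dim⟩ hs' hx'.unit hjj hjU)
    · refine (h.resolve_left fun h3 => ?_) ?_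
      · obtain ⟨jj, hjj, hjU⟩ := (three_iff U).1 h3
        have h01 : jj 0 ≠ jj 1 := fun h => absurd (hjj h) (by decide)
        have h02 : jj 0 ≠ jj 2 := fun h => absurd (hjj h) (by decide)
        have h12 : jj 1 ≠ jj 2 := fun h => absurd (hjj h) (by decide)
        rcases hU _ (hjU 0) with h0 | h0 <;> rcases hU _ (hjU 1) with h1 | h1 <;>
          rcases hU _ (hjU 2) with h2 | h2 <;> simp_all
      let F' : {G : MvPolynomial (Fin (N + 1)) k // IsForm G ∧ val y G = 0} →
        MvPolynomial (Fin (N + 1)) k := fun G => G.1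
      have hden : ∀ G : MvPolynomial (Fin (N + 1)) k, IsForm G → val y G ≠ 0 →
          ∃ (K' : Type) (_ : Field K') (_ : Algebra k K') (w' : ℕ) (x : Fin (N + 1) → K'),
          SubVar F' K' w' x ∧ ¬ GeneralType k K' w' ∧ val x G ≠ 0 := by
        intro G hG hGy
        by_contra hcon
        push Not at hcon
        apply hGy
        rw [hgen G hG]
        intro x hx
        rw [← heq] at hx
        refine hx.2 G hG ?_
        intro K' _ _ w' x' _ hx' hgt
        refine hcon K' inferInstance inferInstance w' x' ⟨hx'.ne, ?_, hx'.gen, hx'.dim⟩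
          (fun h => hgt (lgt_of_gt h))
        rintro ⟨G', hG', hG'y⟩
        exact val_of_cone hx'.ne hx'.unit hx'.mem ((hgen G' hG').1 hG'y)
      obtain ⟨t, z, -, ht, htop⟩ := SN.ruled_of_dense hm hn hN ha (F := F') (y := y) (w := w)
        (fun x hx => ⟨hx.1, fun l => hx.2 ⟨buchi a n m l, isForm_buchi a n m l,
          hyb.mem l⟩⟩) ⟨hy.ne, fun e => e.2.2, hy.gen, hy.dim⟩ hs
        (fun G hG hGy x hx => hx.2 ⟨G, hG, hGy⟩) hden
      exact ⟨coords k z, t, ht, htop⟩
  tfae_have 2 → 3 := fun h h' => h (Set.Subset.antisymm hsp2 (h'.symm.subset.trans hsp))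
  tfae_have 3 → 1 := by
    intro h
    by_contra hgt
    apply h
    rcases U_cases U with ⟨jj, hjj, hjU⟩ | ⟨j1, j2, hU⟩
    · exact absurd (SN.lgt_threeS hm hn hN ha hyb hs hy.unit hjj hjU) hgt
    · obtain ⟨-, t, z, hyz, -, hz, htr, -⟩ :=
        SN.structure_thm hm hn hN ha hyb hs (fun h => hgt (lgt_of_gt h))
      refine Set.Subset.antisymm (fun x hx => hx.1) fun x hx => ⟨hx, fun G hG hL => ?_⟩
      exact (hgen G hG).1 (vanish_str ha hU hF hy.unit hy.mem hyz hz htr hL) x hx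
  tfae_finish

end alg

section an

variable {N n m w : ℕ} {ι : Type} {K : Type} [Field K] [Algebra ℂ K]

/-- essential punctured curves -/
theorem spP_simple (hm : 2 ≤ m) (hn : n ≤ N) (hN : 4 * n < N + 1)
    {a : Fin (N + 1) → ℂ} (ha : Function.Injective a) {U : Set (Fin (N + 1))}
    {F : ι → MvPolynomial (Fin (N + 1)) ℂ} (hF : ∀ e, IsForm (F e))
    (hsub : ConeU U F ⊆ Cone (buchi a n m)) {y : Fin (N + 1) → K} (hy : SubVarU U F K w y)
    (hgen : ∀ G : MvPolynomial (Fin (N + 1)) ℂ, IsForm G →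
      (val y G = 0 ↔ ∀ x ∈ ConeU U F, val x G = 0))
    (hs : SN.Simple m (intp a hn (fun i => y i ^ m))) (heq : SpP U F = Pts U F) :
    SpL U F = ConeU U F := by
  classical
  obtain ⟨Gs, hGs, hGsy, hGsx⟩ := exists_simple_pt (by omega : 1 ≤ m) hn ha hsub hy hgen hs
  -- all the forms which vanish on the lines, times the form `Gs`, vanish
  have key : ∀ G : MvPolynomial (Fin (N + 1)) ℂ, IsForm G →
      (∀ (t : MK (exD 1 one_pos)) (z y' : Fin (N + 1) → MK (exD 1 one_pos)),
        (∀ j ∈ U, y' j ≠ 0) → (∀ e, val y' (F e) = 0) →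
        (∀ i, y' i = (algebraMap ℂ (MK (exD 1 one_pos)) (a i) - t) * z i) →
        (∃ i j, i ≠ j ∧ z i ≠ 0 ∧ z j ≠ 0) → Transcendental (coords ℂ z) t →
        (∃ j1 j2, ∀ j ∈ U, j = j1 ∨ j = j2) → val y' G = 0) → val y G = 0 := by
    intro G hG hL
    have hGG : IsForm (G * Gs) := Pool.Agent.Y190.BV.IsForm.mul' hG hGs
    have h1 : val y (G * Gs) = 0 := by
      rw [hgen (G * Gs) hGG]
      intro x hx
      rw [coneU_eq, ← heq] at hx
      rw [val_eq]
      refine hx.2 (G * Gs) hGG (curve_point fun y' hy0 hyU hyo hyF hne => ?_)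
      rw [val_mul']
      by_cases h0 : val y' Gs = 0
      · rw [h0, mul_zero]
      · have hs' := hGsx _ y' hy0 hyU hyF h0
        obtain ⟨t, z, hyz, hz, hzM, htM⟩ :=
          SN.struct_anS hm hn hN ha hy0 (sub_extU hsub hy0 hyU hyF) hs' hne
        have htr : Transcendental (coords ℂ z) t := fun htalg =>
          htM (Minf_closed (Pool.Agent.Y190.AN.alg_mono hzM htalg))
        rcases U_cases U with ⟨jj, hjj, hjU⟩ | hU
        · exfalso
          apply htM
          exact t_Minf ha hyz hzM hjj (fun i => hyU _ (hjU i)) fun z0 hz0 i =>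
            hyo _ (hjU i) z0 hz0
        · rw [hL t z y' hyU hyF hyz hz htr hU, zero_mul]
    rw [val_mul'] at h1
    exact (mul_eq_zero.1 h1).resolve_right hGsy
  refine Set.Subset.antisymm (fun x hx => hx.1) fun x hx => ⟨hx, fun G hG hL => ?_⟩
  refine (hgen G hG).1 (key G hG fun t z y' hyU hyF hyz hz htr hU => ?_) x hx
  obtain ⟨j1, j2, hU⟩ := hU
  exact vanish_str ha hU hF hyU hyF hyz hz htr hL

/-- **All the conditions.** -/
theorem eight (hm : 2 ≤ m) (hn : n ≤ N) (hN : 4 * n + (n + 1) ^ 2 < 2 * (N + 1))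
    {a : Fin (N + 1) → ℂ} (ha : Function.Injective a) {U : Set (Fin (N + 1))}
    {F : ι → MvPolynomial (Fin (N + 1)) ℂ} (hF : ∀ e, IsForm (F e))
    (hsub : ConeU U F ⊆ Cone (buchi a n m)) {y : Fin (N + 1) → K}
    (hy : SubVarU U F K w y)
    (hgen : ∀ G : MvPolynomial (Fin (N + 1)) ℂ, IsForm G →
      (val y G = 0 ↔ ∀ x ∈ ConeU U F, val x G = 0))
    (hs : SN.Simple m (intp a hn (fun i => y i ^ m))) :
    [LogGeneralType ℂ K w (OffU U y), SpAlgU U F ≠ Pts U F, SpP U F ≠ Pts U F,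
        SpH U F ≠ Pts U F, SpCg U F ≠ Pts U F, SpT U F ≠ Pts U F, SpL U F ≠ Pts U F,
        3 ≤ U.ncard ∨ ¬ Ruled ℂ K].TFAE := by
  have h6 := lang_simpleU hm hn hN ha hF hsub hy hgen hs
  rw [coneU_eq] at h6
  have h7 := spP_simple hm hn (four_lt hN) ha hF hsub hy hgen hs
  rw [coneU_eq] at h7
  have h2 := spH_sub U F
  have h3 := spL_subT U F
  have h4 := spT_subH U F
  have hP : SpP U F ⊆ Pts U F := fun x hx => hx.1
  have hH : SpH U F ⊆ Pts U F := fun x hx => hx.1
  have hT : SpT U F ⊆ Pts U F := fun x hx => hx.1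
  tfae_have 1 ↔ 2 := h6.out 0 1
  tfae_have 1 ↔ 7 := h6.out 0 2
  tfae_have 1 ↔ 8 := h6.out 0 3
  tfae_have 7 → 3 := fun h h' => h (h7 h')
  tfae_have 3 → 4 := fun h h' => h (Set.Subset.antisymm hP (h'.symm.subset.trans h2))
  tfae_have 4 ↔ 5 := by rw [spCg_eq]
  tfae_have 4 → 6 := fun h h' => h (Set.Subset.antisymm hH (h'.symm.subset.trans h4))
  tfae_have 6 → 7 := fun h h' => h (Set.Subset.antisymm hT (h'.symm.subset.trans h3))
  tfae_finish

end an

end Pool.Agent.Y190.SP
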