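import Pool.Agent.Y190.SN.Lang
import Pool.Agent.Y190.QP.PicU

/-!
The structure of the points over the field of meromorphic functions near infinity, for polynomials
of any degree.
-/

set_option autoImplicit false

open Filter Topology Set Metric Polynomial

namespace Pool.Agent.Y190.SN

open FF Pool.Agent.W603.BP Pool.Agent.W601.PH Pool.Agent.Y216 Pool.Agent.Y190.BV
  Pool.Agent.W603.LV Pool.Agent.W602.GT Pool.Agent.Y190.AN Pool.Agent.H159R3.GGLLog
  Pool.Agent.H159R3.NV

variable {r0 : ℝ} {hr0 : 0 < r0}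

/-- **Theorem B.** -/
theorem struct_anS {n m N : ℕ} (hm : 2 ≤ m) (hn : n ≤ N) (hN : 4 * n < N + 1)
    {a : Fin (N + 1) → ℂ} (ha : Function.Injective a) {y : Fin (N + 1) → MK (exD r0 hr0)}
    (hy0 : y ≠ 0) (hy : ∀ l : Rel a n, val y (buchi a n m l) = 0)
    (hs : Simple m (intp a hn (fun i => y i ^ m)))
    (hne : ∃ i j, y j ≠ 0 ∧ y i / y j ∉ Minf r0 hr0) :
    ∃ (t : MK (exD r0 hr0)) (z : Fin (N + 1) → MK (exD r0 hr0)),
      (∀ i, y i = (algebraMap ℂ (MK (exD r0 hr0)) (a i) - t) * z i) ∧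
      (∃ i j, i ≠ j ∧ z i ≠ 0 ∧ z j ≠ 0) ∧ coords ℂ z ≤ Minf r0 hr0 ∧ t ∉ Minf r0 hr0 := by
  classical
  obtain ⟨i1, j1, hj1, hij1⟩ := hne
  set H := intp a hn (fun i => y i ^ m) with hHd
  have hev : ∀ i, H.eval (algebraMap ℂ (MK (exD r0 hr0)) (a i)) = y i ^ m :=
    intp_eval ha hn m hy
  have hH : H ≠ 0 := by
    intro h0
    apply hy0
    funext i
    have h1 := hev i
    rw [h0, Polynomial.eval_zero] at h1
    exact eq_zero_of_pow_eq_zero h1.symm
  have hHdeg : H.natDegree ≤ n := intp_natDegree ha hn _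
  obtain ⟨p, hp, hpH⟩ : ∃ p : (MK (exD r0 hr0))[X], Irreducible p ∧ p ^ m ∣ H := by
    by_contra hcon
    push Not at hcon
    obtain ⟨u, H', hu, hHu⟩ := pow_Minf hm hN a ha H hH hHdeg (fun i => ⟨y i, (hev i).symm⟩) hcon
    apply hij1
    exact Pool.Agent.Y190.AN.ratio_mem (m := m) (by omega) hu H' (by rw [← hHu, hev]) (by rw [← hHu, hev])
  -- the polynomial `p` is linear
  have hp1 : p.natDegree = 1 := by
    have h1 := hs p hpH
    have h2 := hp.natDegree_pos
    omega
  obtain ⟨t, ht⟩ : ∃ t, p.eval t = 0 := by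
    have h1 := Polynomial.exists_root_of_degree_eq_one (p := p)
      ((Polynomial.degree_eq_iff_natDegree_eq_of_pos one_pos).2 hp1)
    obtain ⟨t, ht⟩ := h1
    exact ⟨t, ht⟩
  obtain ⟨H', hH'⟩ : (Polynomial.X - Polynomial.C t) ^ m ∣ H :=
    (pow_dvd_pow_of_dvd (Polynomial.dvd_iff_isRoot.2 ht) m).trans hpH
  have hH'0 : H' ≠ 0 := by
    rintro rfl
    rw [mul_zero] at hH'
    exact hH hH'
  have hdeg : H'.natDegree + m ≤ n := by
    have h4 := congrArg Polynomial.natDegree hH'
    rw [Polynomial.natDegree_mul (pow_ne_zero _ (Polynomial.X_sub_C_ne_zero t)) hH'0,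
      Polynomial.natDegree_pow, Polynomial.natDegree_X_sub_C, mul_one] at h4
    omega
  have hev' : ∀ i, (algebraMap ℂ (MK (exD r0 hr0)) (a i) - t) ^ m *
      H'.eval (algebraMap ℂ (MK (exD r0 hr0)) (a i)) = y i ^ m := by
    intro i
    rw [← hev i, hH', Polynomial.eval_mul, Polynomial.eval_pow, Polynomial.eval_sub,
      Polynomial.eval_X, Polynomial.eval_C]
  -- the polynomial `H'`
  obtain ⟨u, H'', hu, hHu⟩ : ∃ (u : MK (exD r0 hr0)) (H'' : (Minf r0 hr0)[X]), u ≠ 0 ∧
      H' = C u * H''.map (algebraMap (Minf r0 hr0) (MK (exD r0 hr0))) := by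
    obtain ⟨N', rfl⟩ : ∃ N', N = N' + 1 := ⟨N - 1, by omega⟩
    obtain ⟨i0, hi0⟩ : ∃ i0 : Fin (N' + 1 + 1), ∀ i, i ≠ i0 →
        algebraMap ℂ (MK (exD r0 hr0)) (a i) ≠ t := by
      by_cases h : ∃ i0, algebraMap ℂ (MK (exD r0 hr0)) (a i0) = t
      · obtain ⟨i0, hi0⟩ := h
        refine ⟨i0, fun i hi h1 => hi (ha ((algebraMap ℂ (MK (exD r0 hr0))).injective ?_))⟩
        rw [h1, hi0]
      · push Not at h
        exact ⟨0, fun i _ => h i⟩
    refine pow_Minf (n := n - m) (m := m) (N := N') hm (by omega)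
      (fun j => a (i0.succAbove j)) (fun x y hxy => Fin.succAbove_right_injective (ha hxy)) H'
      hH'0 (by omega) ?_ ?_
    · intro j
      have h1 : algebraMap ℂ (MK (exD r0 hr0)) (a (i0.succAbove j)) - t ≠ 0 :=
        sub_ne_zero.2 (hi0 _ (Fin.succAbove_ne i0 j))
      refine ⟨y (i0.succAbove j) / (algebraMap ℂ (MK (exD r0 hr0)) (a (i0.succAbove j)) - t), ?_⟩
      rw [div_pow, ← hev', mul_div_assoc, mul_div_cancel₀ _ (pow_ne_zero _ h1)]
    · intro p' hp' hdvd
      have h1 : ((Polynomial.X - Polynomial.C t) * p') ^ m ∣ H := by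
        rw [mul_pow, hH']
        exact mul_dvd_mul dvd_rfl hdvd
      have h2 := hs _ h1
      rw [Polynomial.natDegree_mul (Polynomial.X_sub_C_ne_zero t) hp'.ne_zero,
        Polynomial.natDegree_X_sub_C] at h2
      have := hp'.natDegree_pos
      omega
  -- `t` is transcendental
  have htM : t ∉ Minf r0 hr0 := by
    intro htM
    apply hij1
    have hHt : H = C u * ((X - C (⟨t, htM⟩ : Minf r0 hr0)) ^ m * H'').map
        (algebraMap (Minf r0 hr0) (MK (exD r0 hr0))) := by
      rw [hH', hHu, Polynomial.map_mul, Polynomial.map_pow, Polynomial.map_sub, Polynomial.map_X,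
        Polynomial.map_C]
      change (X - C t) ^ m * _ = C u * ((X - C t) ^ m * _)
      ring
    exact Pool.Agent.Y190.AN.ratio_mem (m := m) (by omega) hu _ (by rw [← hHt, hev]) (by rw [← hHt, hev])
  have hat : ∀ i, algebraMap ℂ (MK (exD r0 hr0)) (a i) - t ≠ 0 := by
    intro i h
    apply htM
    rw [← sub_eq_zero.1 h]
    exact (Minf r0 hr0).algebraMap_mem _
  set z : Fin (N + 1) → MK (exD r0 hr0) :=
    fun i => y i / (algebraMap ℂ (MK (exD r0 hr0)) (a i) - t) with hz
  have hyz : ∀ i, y i = (algebraMap ℂ (MK (exD r0 hr0)) (a i) - t) * z i := by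
    intro i
    simp only [hz]
    have := hat i
    field_simp
  have hzm : ∀ i, H'.eval (algebraMap ℂ (MK (exD r0 hr0)) (a i)) = z i ^ m := by
    intro i
    simp only [hz]
    rw [div_pow, ← hev', mul_div_assoc, mul_div_cancel₀ _ (pow_ne_zero _ (hat i))]
  have hz0 : ∃ i j, i ≠ j ∧ z i ≠ 0 ∧ z j ≠ 0 := by
    obtain ⟨i, j, hij, hi, hj⟩ := two_nonzero ha (d := H'.natDegree) (by omega) hH'0 le_rfl
    refine ⟨i, j, hij, ?_, ?_⟩
    · intro h0
      rw [hzm, h0, zero_pow (by omega)] at hi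
      exact hi rfl
    · intro h0
      rw [hzm, h0, zero_pow (by omega)] at hj
      exact hj rfl
  have hle : coords ℂ z ≤ Minf r0 hr0 := by
    unfold coords
    rw [IntermediateField.adjoin_le_iff]
    rintro _ ⟨i, j, hj, rfl⟩
    exact Pool.Agent.Y190.AN.ratio_mem (m := m) (by omega) hu H'' (by rw [← hHu, hzm]) (by rw [← hHu, hzm])
  exact ⟨t, z, hyz, hz0, hle, htM⟩

/-- **A point of `X` whose polynomial has a multiple factor lies on a line.** -/
theorem vanish_mfold {k : Type} [Field k] [IsAlgClosed k] {n m N : ℕ} (hm : 2 ≤ m)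
    (hn : n < N) {a : Fin (N + 1) → k} (ha : Function.Injective a) {K : Type} [Field K]
    [Algebra k K] {y : Fin (N + 1) → K} (hy0 : y ≠ 0)
    (hy : ∀ l : Rel a n, val y (buchi a n m l) = 0) {p : K[X]} (hp : Irreducible p)
    (hpH : p ^ m ∣ intp a hn.le (fun i => y i ^ m)) {G : MvPolynomial (Fin (N + 1)) k}
    (hL : ∀ b b', Line (buchi a n m) b b' → ∀ c c' : k, val (c • b + c' • b') G = 0) :
    val y G = 0 := by
  set H := intp a hn.le (fun i => y i ^ m) with hHd
  have hev : ∀ i, H.eval (algebraMap k K (a i)) = y i ^ m := intp_eval ha hn.le m hy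
  have hH : H ≠ 0 := by
    intro h0
    apply hy0
    funext i
    have h1 := hev i
    rw [h0, Polynomial.eval_zero] at h1
    exact eq_zero_of_pow_eq_zero h1.symm
  have hHdeg : H.natDegree ≤ n := intp_natDegree ha hn.le _
  let L := AlgebraicClosure K
  let φ : K →ₐ[k] L := IsScalarTower.toAlgHom k K L
  obtain ⟨t, ht⟩ := IsAlgClosed.exists_aeval_eq_zero L p (by
    have := Polynomial.degree_pos_of_irreducible hp
    exact this.ne')
  have hdvd : (Polynomial.X - Polynomial.C t) ^ m ∣ H.map (algebraMap K L) := by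
    have h4 : (Polynomial.X - Polynomial.C t) ∣ p.map (algebraMap K L) := by
      rw [Polynomial.dvd_iff_isRoot, Polynomial.IsRoot, Polynomial.eval_map_algebraMap]
      exact ht
    have h5 := pow_dvd_pow_of_dvd h4 m
    rw [← Polynomial.map_pow] at h5
    exact h5.trans (Polynomial.map_dvd _ hpH)
  obtain ⟨H', hH'⟩ := hdvd
  have hH'0 : H' ≠ 0 := by
    rintro rfl
    rw [mul_zero] at hH'
    exact (Polynomial.map_ne_zero hH) hH'
  have hdeg : H'.natDegree + m ≤ n := by
    have h4 := congrArg Polynomial.natDegree hH'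
    rw [Polynomial.natDegree_map, Polynomial.natDegree_mul
      (pow_ne_zero _ (Polynomial.X_sub_C_ne_zero t)) hH'0, Polynomial.natDegree_pow,
      Polynomial.natDegree_X_sub_C, mul_one] at h4
    omega
  let y' : Fin (N + 1) → L := fun i => φ (y i)
  have hy'0 : y' ≠ 0 := by
    intro h0
    apply hy0
    funext i
    have := congrFun h0 i
    exact φ.toRingHom.injective (by rw [Pi.zero_apply, map_zero]; exact this)
  have hy' : ∀ i, ((Polynomial.X - Polynomial.C t) ^ m * H').eval (algebraMap k L (a i)) =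
      y' i ^ m := by
    intro i
    rw [← hH', IsScalarTower.algebraMap_apply k K L, Polynomial.eval_map_algebraMap,
      Polynomial.aeval_algebraMap_apply, Polynomial.coe_aeval_eq_eval, hev i, map_pow]
    rfl
  obtain ⟨v, hv1, -, hv3⟩ := line_of_root (by omega : 1 ≤ m) ha hn.le hy'0 hdeg
    hy'
  have h6 := mem_closure y' v hv1 hv3 hL
  have h7 := val_map φ G y
  change φ (val y G) = val y' G at h7
  rw [h6] at h7
  exact φ.toRingHom.injective (by rw [map_zero]; exact h7)

/-- The forms which vanish on the lines of `X` vanish at its points which are not meromorphic at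
infinity. -/
theorem vanish_anX {n m N : ℕ} (hm : 2 ≤ m) (hN : 4 * n < N + 1)
    {a : Fin (N + 1) → ℂ} (ha : Function.Injective a) {y : Fin (N + 1) → MK (exD r0 hr0)}
    (hy0 : y ≠ 0) (hy : ∀ l : Rel a n, val y (buchi a n m l) = 0)
    (hne : ∃ i j, y j ≠ 0 ∧ y i / y j ∉ Minf r0 hr0) {G : MvPolynomial (Fin (N + 1)) ℂ}
    (hL : ∀ b b', Line (buchi a n m) b b' → ∀ c c' : ℂ, val (c • b + c' • b') G = 0) :
    val y G = 0 := by
  classical
  by_cases hn0 : N = 0
  · subst hn0
    exfalso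
    obtain ⟨i1, j1, hj1, hij1⟩ := hne
    have h1 : i1 = j1 := Fin.ext (by omega)
    rw [h1, div_self hj1] at hij1
    exact hij1 (Minf r0 hr0).one_mem
  have hn : n < N := by omega
  obtain ⟨i1, j1, hj1, hij1⟩ := hne
  set H := intp a hn.le (fun i => y i ^ m) with hHd
  have hev : ∀ i, H.eval (algebraMap ℂ (MK (exD r0 hr0)) (a i)) = y i ^ m :=
    intp_eval ha hn.le m hy
  have hH : H ≠ 0 := by
    intro h0
    apply hy0
    funext i
    have h1 := hev i
    rw [h0, Polynomial.eval_zero] at h1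
    exact eq_zero_of_pow_eq_zero h1.symm
  have hHdeg : H.natDegree ≤ n := intp_natDegree ha hn.le _
  obtain ⟨p, hp, hpH⟩ : ∃ p : (MK (exD r0 hr0))[X], Irreducible p ∧ p ^ m ∣ H := by
    by_contra hcon
    push Not at hcon
    obtain ⟨u, H', hu, hHu⟩ := pow_Minf hm hN a ha H hH hHdeg (fun i => ⟨y i, (hev i).symm⟩) hcon
    apply hij1
    exact Pool.Agent.Y190.AN.ratio_mem (m := m) (by omega) hu H' (by rw [← hHu, hev]) (by rw [← hHu, hev])
  exact vanish_mfold hm hn ha hy0 hy hp hpH hL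

end Pool.Agent.Y190.SN
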