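import Pool.Agent.Y190.SN.Dens

/-!
Rational maps to the varieties of powers of values of polynomials factor, up to lines, through
varieties of general type.
-/

set_option autoImplicit false

set_option linter.unusedSectionVars false

open FF Pool.Agent.W603.LV Pool.Agent.W602.GT Pool.Agent.Y190.BV Polynomial

namespace Pool.Agent.Y190.SN

variable {k : Type} [Field k] {N : ℕ} {K : Type} [Field K] [Algebra k K] {n m : ℕ}

/-- the field generated by the ratios of the coefficients -/
def cf (k : Type) [Field k] {K : Type} [Field K] [Algebra k K] (G : K[X]) :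
    IntermediateField k K :=
  IntermediateField.adjoin k {x | ∃ i j, x = G.coeff i / G.coeff j}

/-- its algebraic closure -/
noncomputable def cl (k : Type) [Field k] {K : Type} [Field K] [Algebra k K] (G : K[X]) :
    IntermediateField k K := (algebraicClosure (cf k G) K).restrictScalars k

theorem mem_cl {G : K[X]} {x : K} : x ∈ cl k G ↔ IsAlgebraic (cf k G) x :=
  mem_algebraicClosure_iff

theorem cf_le_cl {G : K[X]} {x : K} (hx : x ∈ cf k G) : x ∈ cl k G :=
  mem_cl.2 (isAlgebraic_algebraMap (⟨x, hx⟩ : cf k G))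

theorem cl_closed {G : K[X]} {x : K} (hx : IsAlgebraic (cl k G) x) : x ∈ cl k G := by
  rw [mem_cl]
  have h3 : Algebra.IsAlgebraic (cf k G) (algebraicClosure (cf k G) K) :=
    algebraicClosure.isAlgebraic _ K
  have h4 : IsAlgebraic (algebraicClosure (cf k G) K) x := hx
  exact h4.restrictScalars (cf k G)

theorem ratio_mem {G : K[X]} (i j : ℕ) : G.coeff i / G.coeff j ∈ cf k G :=
  IntermediateField.subset_adjoin k _ ⟨i, j, rfl⟩

theorem eval_mem {G : K[X]} (j0 : ℕ) (c : k) :
    G.eval (algebraMap k K c) / G.coeff j0 ∈ cf k G := by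
  rw [Polynomial.eval_eq_sum_range, Finset.sum_div]
  refine (cf k G).sum_mem fun j _ => ?_
  have e : G.coeff j * algebraMap k K c ^ j / G.coeff j0 =
      (G.coeff j / G.coeff j0) * algebraMap k K (c ^ j) := by
    rw [map_pow]; ring
  rw [e]
  exact (cf k G).mul_mem (ratio_mem _ _) ((cf k G).algebraMap_mem _)

/-- **The general type of the closure.** -/
theorem gt_closure [IsAlgClosed k] [CharZero k] {d : ℕ} (htr : Algebra.trdeg k K = d)
    (hm : 2 ≤ m) (hN : 4 * n + (n + 1) ^ 2 < 2 * (N + 1)) (a : Fin (N + 1) → k)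
    (ha : Function.Injective a) (G : K[X]) (hG : G ≠ 0) (hdeg : G.natDegree ≤ n)
    (hpow : ∀ i, ∃ y : K, y ^ m = G.eval (algebraMap k K (a i)))
    (hmult : ∀ p : K[X], Irreducible p → ¬ p ^ m ∣ G) :
    ∃ b : ℕ, b ≤ d ∧ GeneralType k (cl k G) b := by
  classical
  obtain ⟨b, hb⟩ : ∃ b : ℕ, Algebra.trdeg k (cl k G) = b := by
    have h1 : Algebra.trdeg k (cl k G) ≤ d := by
      rw [← htr]
      exact trdeg_le_of_injective (cl k G).val (cl k G).val.injective
    obtain ⟨b, hb⟩ := Cardinal.lt_aleph0.1 (h1.trans_lt (Cardinal.natCast_lt_aleph0))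
    exact ⟨b, hb⟩
  have hbd : b ≤ d := by
    have h1 : Algebra.trdeg k (cl k G) ≤ d := by
      rw [← htr]
      exact trdeg_le_of_injective (cl k G).val (cl k G).val.injective
    rw [hb] at h1
    exact_mod_cast h1
  refine ⟨b, hbd, ?_⟩
  obtain ⟨j0, hj0⟩ : ∃ j0, G.coeff j0 ≠ 0 := by
    by_contra hcon
    push Not at hcon
    exact hG (Polynomial.ext fun j => by rw [hcon j, Polynomial.coeff_zero])
  -- a node where the polynomial does not vanish
  obtain ⟨i0, hi0⟩ : ∃ i0, G.eval (algebraMap k K (a i0)) ≠ 0 := by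
    by_contra hcon
    push Not at hcon
    apply hG
    refine Polynomial.eq_zero_of_natDegree_lt_card_of_eval_eq_zero G
      (f := fun i : Fin (N + 1) => algebraMap k K (a i))
      (fun i j h => ha ((algebraMap k K).injective h)) hcon ?_
    rw [Fintype.card_fin]
    nlinarith
  choose y hy using hpow
  have hyi0 : y i0 ≠ 0 := by
    intro h0
    apply hi0
    rw [← hy, h0, zero_pow (by omega)]
  set c : K := y i0 ^ m with hc
  have hc0 : c ≠ 0 := pow_ne_zero _ hyi0
  have hcc : c = G.eval (algebraMap k K (a i0)) := hy i0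
  have hcoef : ∀ j, G.coeff j / c ∈ cl k G := by
    intro j
    apply cf_le_cl
    have e : G.coeff j / c = (G.coeff j / G.coeff j0) /
        (G.eval (algebraMap k K (a i0)) / G.coeff j0) := by
      rw [← hcc, div_div_div_cancel_right₀ hj0]
    rw [e]
    exact (cf k G).div_mem (ratio_mem _ _) (eval_mem _ _)
  obtain ⟨G', hG'⟩ : ∃ G' : (cl k G)[X], G'.map (algebraMap (cl k G) K) = C c⁻¹ * G := by
    have h1 : C c⁻¹ * G ∈ Polynomial.lifts (algebraMap (cl k G) K) := by
      rw [Polynomial.lifts_iff_coeff_lifts]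
      intro i
      refine ⟨⟨_, hcoef i⟩, ?_⟩
      rw [coeff_C_mul]
      change G.coeff i / c = _
      rw [div_eq_mul_inv, mul_comm]
    exact (Polynomial.mem_lifts _).1 h1
  have hinj : Function.Injective (algebraMap (cl k G) K) := (algebraMap (cl k G) K).injective
  have hG'c : ∀ j, ((G'.coeff j : cl k G) : K) = c⁻¹ * G.coeff j := by
    intro j
    have h1 := congrArg (fun p => p.coeff j) hG'
    simp only [coeff_map, coeff_C_mul] at h1
    exact h1
  have hG'0 : G' ≠ 0 := by
    rintro rfl
    rw [Polynomial.map_zero] at hG'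
    exact mul_ne_zero (C_ne_zero.2 (inv_ne_zero hc0)) hG hG'.symm
  have hG'd : G'.natDegree ≤ n := by
    rw [← Polynomial.natDegree_map_eq_of_injective hinj, hG']
    exact (natDegree_C_mul_le _ _).trans hdeg
  refine Pool.Agent.Y190.BV.general_of_log (core_rad (n := n) (m := m) hb hm hN a ha G' hG'0
    hG'd ?_ ?_ ?_)
  · -- algebraicity
    have h2 : ∀ x ∈ cf k G, ∃ y ∈ IntermediateField.adjoin k
        {x : cl k G | ∃ i j, x = G'.coeff i / G'.coeff j}, ((y : cl k G) : K) = x := by
      intro x hx
      unfold cf at hx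
      induction hx using IntermediateField.adjoin_induction with
      | mem x hx =>
        obtain ⟨i, j, rfl⟩ := hx
        refine ⟨G'.coeff i / G'.coeff j, IntermediateField.subset_adjoin k _ ⟨i, j, rfl⟩, ?_⟩
        have h3 : ((G'.coeff i / G'.coeff j : cl k G) : K) =
            (G'.coeff i : K) / (G'.coeff j : K) := rfl
        rw [h3, hG'c, hG'c, mul_div_mul_left _ _ (inv_ne_zero hc0)]
      | algebraMap x =>
        exact ⟨algebraMap k (cl k G) x, IntermediateField.algebraMap_mem _ x, rfl⟩
      | add x x' _ _ h h' =>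
        obtain ⟨u, hu, rfl⟩ := h
        obtain ⟨v, hv, rfl⟩ := h'
        exact ⟨u + v, add_mem hu hv, rfl⟩
      | inv x _ h =>
        obtain ⟨u, hu, rfl⟩ := h
        exact ⟨u⁻¹, inv_mem hu, rfl⟩
      | mul x x' _ _ h h' =>
        obtain ⟨u, hu, rfl⟩ := h
        obtain ⟨v, hv, rfl⟩ := h'
        exact ⟨u * v, mul_mem hu hv, rfl⟩
    have h4 : Algebra.IsAlgebraic (IntermediateField.adjoin k
        {x : cl k G | ∃ i j, x = G'.coeff i / G'.coeff j}) (cl k G) := by
      constructor
      intro x
      have h5 : IsAlgebraic (cf k G) (x : K) := mem_cl.1 x.2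
      let E' := IntermediateField.adjoin k {x : cl k G | ∃ i j, x = G'.coeff i / G'.coeff j}
      have h7 : ∀ z : cf k G, ∃ u : E', ((u : cl k G) : K) = z := fun z => by
        obtain ⟨u, hu, hz⟩ := h2 z z.2
        exact ⟨⟨u, hu⟩, hz⟩
      have h8 : IsAlgebraic E' (x : K) := by
        obtain ⟨p, hp0, hp⟩ := h5
        choose f hf using h7
        refine ⟨∑ j ∈ Finset.range (p.natDegree + 1), C (f (p.coeff j)) * X ^ j, ?_, ?_⟩
        · intro h0
          have h9 := congrArg (fun q => q.coeff p.natDegree) h0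
          simp only [finsetSum_coeff, coeff_C_mul, coeff_X_pow, mul_ite, mul_one, mul_zero,
            coeff_zero] at h9
          rw [Finset.sum_ite_eq, if_pos (Finset.mem_range.2 (Nat.lt_succ_self _))] at h9
          have h10 := hf (p.coeff p.natDegree)
          rw [h9] at h10
          apply hp0
          rw [← leadingCoeff_eq_zero]
          apply Subtype.ext
          exact h10.symm
        · rw [map_sum]
          rw [aeval_eq_sum_range] at hp
          rw [← hp]
          refine Finset.sum_congr rfl fun j _ => ?_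
          rw [map_mul, map_pow, aeval_X, aeval_C, Algebra.smul_def]
          congr 1
          exact hf (p.coeff j)
      exact (isAlgebraic_algHom_iff (IsScalarTower.toAlgHom E' (cl k G) K)
        (algebraMap (cl k G) K).injective).1 h8
    exact IntermediateField.isAlgebraic_adjoin_iff_top.1 h4
  · intro i
    have h1 : y i / y i0 ∈ cl k G := by
      apply cl_closed
      have h2 : IsAlgebraic (cl k G) ((y i / y i0) ^ m) := by
        have h3 : (y i / y i0) ^ m ∈ cl k G := by
          rw [div_pow, hy i, ← hc]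
          have e : G.eval (algebraMap k K (a i)) / c =
              (G.eval (algebraMap k K (a i)) / G.coeff j0) /
              (G.eval (algebraMap k K (a i0)) / G.coeff j0) := by
            rw [← hcc, div_div_div_cancel_right₀ hj0]
          rw [e]
          exact cf_le_cl ((cf k G).div_mem (eval_mem _ _) (eval_mem _ _))
        exact isAlgebraic_algebraMap (⟨_, h3⟩ : cl k G)
      exact IsAlgebraic.of_pow (by omega) h2
    refine ⟨⟨_, h1⟩, ?_⟩
    apply hinj
    rw [map_pow]
    change (y i / y i0) ^ m = _
    have h2 : algebraMap (cl k G) K (G'.eval (algebraMap k (cl k G) (a i))) =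
        (G'.map (algebraMap (cl k G) K)).eval (algebraMap k K (a i)) := by
      rw [Polynomial.eval_map]
      exact (Polynomial.eval₂_at_apply (algebraMap (cl k G) K)
        (algebraMap k (cl k G) (a i))).symm
    rw [h2, hG', eval_mul, eval_C, ← hy i, div_pow, hc, div_eq_mul_inv, mul_comm]
  · intro p hp hdvd
    have h1 : p.map (algebraMap (cl k G) K) ^ m ∣ G := by
      have h2 : p.map (algebraMap (cl k G) K) ^ m ∣ C c⁻¹ * G := by
        rw [← hG', ← Polynomial.map_pow]
        exact Polynomial.map_dvd _ hdvd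
      have h3 := h2.mul_left (C c)
      rwa [← mul_assoc, ← C_mul, mul_inv_cancel₀ hc0, C_1, one_mul] at h3
    have hp0 : p.map (algebraMap (cl k G) K) ≠ 0 := Polynomial.map_ne_zero hp.ne_zero
    obtain ⟨p', q', hp', hpq⟩ := exists_irr hp0 (by
      rw [natDegree_map]
      exact hp.natDegree_pos)
    apply hmult p' hp'
    refine (pow_dvd_pow_of_dvd ?_ m).trans h1
    rw [hpq]
    exact Dvd.intro _ rfl

end Pool.Agent.Y190.SN
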