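import Pool.Agent.Y190.SN.Fib
import Pool.Agent.W602.GT.KGen

/-!
Every rational map to a variety of powers of values of polynomials is, up to a family of linear
spaces, the pullback of a map from a variety of general type.
-/

set_option autoImplicit false

set_option linter.unusedSectionVars false

open FF Pool.Agent.W603.LV Pool.Agent.W602.GT Pool.Agent.Y190.BV Polynomial

namespace Pool.Agent.Y190.SN

section

variable {K : Type} [Field K]

/-- Every nonzero polynomial is the product of the `m`-th power of a monic polynomial and of a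
polynomial without factors of multiplicity `m`. -/
theorem exists_split {m : ℕ} (hm : 1 ≤ m) : ∀ (D : ℕ) {H : K[X]}, H ≠ 0 → H.natDegree ≤ D →
    ∃ q G : K[X], q.Monic ∧ H = q ^ m * G ∧ ∀ p : K[X], Irreducible p → ¬ p ^ m ∣ G := by
  classical
  intro D
  induction D with
  | zero =>
    intro H hH hD
    refine ⟨1, H, monic_one, by rw [one_pow, one_mul], fun p hp hdvd => ?_⟩
    have h1 := natDegree_le_of_dvd hdvd hH
    rw [natDegree_pow] at h1
    have h2 := hp.natDegree_pos
    have h3 : 1 * 1 ≤ m * p.natDegree := Nat.mul_le_mul hm h2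
    omega
  | succ D ih =>
    intro H hH hD
    by_cases hcon : ∀ p : K[X], Irreducible p → ¬ p ^ m ∣ H
    · exact ⟨1, H, monic_one, by rw [one_pow, one_mul], hcon⟩
    push Not at hcon
    obtain ⟨p, hp, H1, hH1⟩ := hcon
    have hl : p.leadingCoeff ≠ 0 := leadingCoeff_ne_zero.2 hp.ne_zero
    have hH10 : H1 ≠ 0 := by
      rintro rfl
      exact hH (by rw [hH1, mul_zero])
    have h0 : C (p.leadingCoeff ^ m) * H1 ≠ 0 := mul_ne_zero (C_ne_zero.2 (pow_ne_zero _ hl)) hH10
    have hdeg : (C (p.leadingCoeff ^ m) * H1).natDegree ≤ D := by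
      refine (natDegree_C_mul_le _ _).trans ?_
      have h1 := congrArg natDegree hH1
      rw [natDegree_mul (pow_ne_zero _ hp.ne_zero) hH10, natDegree_pow] at h1
      have h2 := hp.natDegree_pos
      have h3 : 1 * 1 ≤ m * p.natDegree := Nat.mul_le_mul hm h2
      omega
    obtain ⟨q, G, hq, hqG, hG⟩ := ih h0 hdeg
    refine ⟨(p * C p.leadingCoeff⁻¹) * q, G, (monic_mul_leadingCoeff_inv hp.ne_zero).mul hq, ?_,
      hG⟩
    rw [mul_pow, mul_assoc, ← hqG, mul_pow, hH1, ← C_pow, mul_assoc, ← mul_assoc (C _) (C _) H1,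
      ← C_mul, ← mul_pow, inv_mul_cancel₀ hl, one_pow, C_1, one_mul]

end

variable {k : Type} [Field k] {N : ℕ} {K : Type} [Field K] [Algebra k K] {n m : ℕ}

/-- general type when everything is algebraic over the ratios of the coefficients -/
theorem gt_top [IsAlgClosed k] [CharZero k] {d : ℕ} (htr : Algebra.trdeg k K = d)
    (hm : 2 ≤ m) (hN : 4 * n + (n + 1) ^ 2 < 2 * (N + 1)) (a : Fin (N + 1) → k)
    (ha : Function.Injective a) (G : K[X]) (hG : G ≠ 0) (hdeg : G.natDegree ≤ n)
    (hpow : ∀ i, ∃ y : K, y ^ m = G.eval (algebraMap k K (a i)))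
    (hmult : ∀ p : K[X], Irreducible p → ¬ p ^ m ∣ G) (htop : ∀ x : K, x ∈ cl k G) :
    GeneralType k K d := by
  refine Pool.Agent.Y190.BV.general_of_log (core_rad (n := n) (m := m) htr hm hN a ha G hG
    hdeg ?_ hpow hmult)
  have h4 : Algebra.IsAlgebraic (cf k G) K := ⟨fun x => mem_cl.1 (htop x)⟩
  exact IntermediateField.isAlgebraic_adjoin_iff_top.1 h4

/-- **Rational maps to the varieties of powers of values of polynomials.** -/
theorem fibration [IsAlgClosed k] [CharZero k] {d : ℕ} (htr : Algebra.trdeg k K = d)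
    (hm : 2 ≤ m) (hN : 4 * n + (n + 1) ^ 2 < 2 * (N + 1)) (a : Fin (N + 1) → k)
    (ha : Function.Injective a) (y : Fin (N + 1) → K) (hy : y ≠ 0) (H : K[X])
    (hH : H.natDegree ≤ n) (hyH : ∀ i, y i ^ m = H.eval (algebraMap k K (a i))) :
    ∃ (B : IntermediateField k K) (b : ℕ) (q : K[X]) (G : B[X]) (c : K) (z : Fin (N + 1) → B),
      b ≤ d ∧ (∀ x : K, IsAlgebraic B x → x ∈ B) ∧ GeneralType k B b ∧ q.Monic ∧
      q.natDegree * m + G.natDegree ≤ n ∧ c ≠ 0 ∧
      (∀ i, y i = c * q.eval (algebraMap k K (a i)) * (z i : K)) ∧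
      (∀ i, q.eval (algebraMap k K (a i)) ≠ 0 → z i ^ m = G.eval (algebraMap k B (a i))) ∧
      (∀ p : B[X], Irreducible p → ¬ p ^ m ∣ G) ∧ ((∀ x, x ∈ B) → GeneralType k K d) := by
  classical
  have hH0 : H ≠ 0 := by
    intro h0
    apply hy
    funext i
    have h1 := hyH i
    rw [h0, eval_zero] at h1
    exact eq_zero_of_pow_eq_zero h1
  obtain ⟨q, G, hq, hqG, hG⟩ := exists_split (by omega : 1 ≤ m) H.natDegree hH0 le_rfl
  have hG0 : G ≠ 0 := by
    rintro rfl
    exact hH0 (by rw [hqG, mul_zero])
  have hdeg : q.natDegree * m + G.natDegree ≤ n := by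
    have h1 := congrArg natDegree hqG
    rw [natDegree_mul (pow_ne_zero _ hq.ne_zero) hG0, natDegree_pow] at h1
    rw [mul_comm]
    omega
  set r := q.natDegree with hr
  have hrm : r * 2 ≤ r * m := Nat.mul_le_mul_left r hm
  -- the nodes where `q` does not vanish
  set S := Finset.univ.filter (fun i : Fin (N + 1) => q.eval (algebraMap k K (a i)) ≠ 0) with hS
  have hcard : N - r + 1 ≤ S.card := by
    have h1 : (Finset.univ.filter
        (fun i : Fin (N + 1) => ¬ q.eval (algebraMap k K (a i)) ≠ 0)).card ≤ r := by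
      have h2 : ((Finset.univ.filter
          (fun i : Fin (N + 1) => ¬ q.eval (algebraMap k K (a i)) ≠ 0)).image
            (fun i => algebraMap k K (a i))).card ≤ r := by
        refine (Finset.card_le_card (t := q.roots.toFinset) ?_).trans
          ((Multiset.toFinset_card_le _).trans (card_roots' q))
        intro x hx
        rw [Finset.mem_image] at hx
        obtain ⟨i, hi, rfl⟩ := hx
        rw [Finset.mem_filter] at hi
        rw [Multiset.mem_toFinset, mem_roots hq.ne_zero]
        exact not_not.1 hi.2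
      rwa [Finset.card_image_of_injective _
        (fun i j h => ha ((algebraMap k K).injective h))] at h2
    have h3 := Finset.card_filter_add_card_filter_not (s := (Finset.univ : Finset (Fin (N + 1))))
      (fun i : Fin (N + 1) => q.eval (algebraMap k K (a i)) ≠ 0)
    rw [Finset.card_univ, Fintype.card_fin] at h3
    have h4 : r ≤ N := by nlinarith
    rw [← hS] at h3
    omega
  have hev : ∀ i, q.eval (algebraMap k K (a i)) ^ m * G.eval (algebraMap k K (a i)) = y i ^ m := by
    intro i
    rw [hyH i, hqG, eval_mul, eval_pow]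
  have hN' : 4 * (n - r * m) + (n - r * m + 1) ^ 2 < 2 * (N - r + 1) := by
    obtain ⟨s, hs⟩ := Nat.exists_eq_add_of_le (by omega : r * m ≤ n)
    rw [hs, Nat.add_sub_cancel_left]
    rw [hs] at hN
    have h4 : r ≤ N := by nlinarith
    have h5 : 2 * (N - r + 1) + 2 * r = 2 * (N + 1) := by omega
    have h6 : (s + 1) ^ 2 ≤ (r * m + s + 1) ^ 2 := Nat.pow_le_pow_left (by omega) 2
    omega
  have hpow' : ∀ j, ∃ y : K, y ^ m =
      G.eval (algebraMap k K (a (S.orderEmbOfCardLe hcard j))) := by
    intro j
    have h1 : q.eval (algebraMap k K (a (S.orderEmbOfCardLe hcard j))) ≠ 0 :=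
      (Finset.mem_filter.1 (S.orderEmbOfCardLe_mem hcard j)).2
    refine ⟨y (S.orderEmbOfCardLe hcard j) /
      q.eval (algebraMap k K (a (S.orderEmbOfCardLe hcard j))), ?_⟩
    rw [div_pow, ← hev, mul_div_assoc, mul_div_cancel₀ _ (pow_ne_zero _ h1)]
  have hinj' : Function.Injective (fun j => a (S.orderEmbOfCardLe hcard j)) :=
    fun x x' h => (S.orderEmbOfCardLe hcard).injective (ha h)
  obtain ⟨b, hbd, hb⟩ : ∃ b : ℕ, b ≤ d ∧ GeneralType k (cl k G) b :=
    gt_closure (n := n - r * m) (m := m) (N := N - r) htr hm hN' _ hinj' G hG0 (by omega) hpow' hG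
  obtain ⟨i0, hi0⟩ : ∃ i0, y i0 ≠ 0 := by
    by_contra hcon
    push Not at hcon
    exact hy (funext hcon)
  have hqi0 : q.eval (algebraMap k K (a i0)) ≠ 0 := by
    intro h0
    apply hi0
    have h1 := hev i0
    rw [h0, zero_pow (by omega), zero_mul] at h1
    exact eq_zero_of_pow_eq_zero h1.symm
  set c : K := y i0 / q.eval (algebraMap k K (a i0)) with hc
  have hc0 : c ≠ 0 := div_ne_zero hi0 hqi0
  have hcG : c ^ m = G.eval (algebraMap k K (a i0)) := by
    rw [hc, div_pow, ← hev, mul_div_assoc, mul_div_cancel₀ _ (pow_ne_zero _ hqi0)]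
  obtain ⟨j0, hj0⟩ : ∃ j0, G.coeff j0 ≠ 0 := by
    by_contra hcon
    push Not at hcon
    exact hG0 (Polynomial.ext fun j => by rw [hcon j, Polynomial.coeff_zero])
  have hratio : ∀ x : K, x / G.coeff j0 ∈ cf k G → x / c ^ m ∈ cl k G := by
    intro x hx
    have e : x / c ^ m = (x / G.coeff j0) / (G.eval (algebraMap k K (a i0)) / G.coeff j0) := by
      rw [← hcG, div_div_div_cancel_right₀ hj0]
    rw [e]
    exact cf_le_cl ((cf k G).div_mem hx (eval_mem _ _))
  have hzi : ∀ i, y i / q.eval (algebraMap k K (a i)) / c ∈ cl k G := by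
    intro i
    by_cases h0 : q.eval (algebraMap k K (a i)) = 0
    · rw [h0, div_zero, zero_div]
      exact zero_mem _
    apply cl_closed
    have h3 : (y i / q.eval (algebraMap k K (a i)) / c) ^ m ∈ cl k G := by
      rw [div_pow, div_pow, ← hev i, mul_comm, mul_div_assoc, div_self (pow_ne_zero _ h0), mul_one]
      exact hratio _ (eval_mem _ _)
    have h2 : IsAlgebraic (cl k G) ((y i / q.eval (algebraMap k K (a i)) / c) ^ m) :=
      isAlgebraic_algebraMap (⟨_, h3⟩ : cl k G)
    exact IsAlgebraic.of_pow (by omega) h2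
  have hinj : Function.Injective (algebraMap (cl k G) K) := (algebraMap (cl k G) K).injective
  obtain ⟨G', hG'⟩ : ∃ G' : (cl k G)[X], G'.map (algebraMap (cl k G) K) = C (c ^ m)⁻¹ * G := by
    have h1 : C (c ^ m)⁻¹ * G ∈ Polynomial.lifts (algebraMap (cl k G) K) := by
      rw [Polynomial.lifts_iff_coeff_lifts]
      intro i
      refine ⟨⟨_, hratio _ (ratio_mem i j0)⟩, ?_⟩
      rw [coeff_C_mul]
      change G.coeff i / c ^ m = _
      rw [div_eq_mul_inv, mul_comm]
    exact (Polynomial.mem_lifts _).1 h1
  have hG'd : G'.natDegree = G.natDegree := by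
    rw [← Polynomial.natDegree_map_eq_of_injective hinj, hG',
      natDegree_C_mul (inv_ne_zero (pow_ne_zero _ hc0))]
  refine ⟨cl k G, b, q, G', c, fun i => ⟨_, hzi i⟩, hbd, fun x hx => cl_closed hx, hb, hq, ?_, hc0,
    fun i => ?_, fun i hi => ?_, fun p hp hdvd => ?_,
    fun htop => gt_top (n := n - r * m) (m := m) (N := N - r) htr hm hN' _ hinj' G hG0
      (by omega) hpow' hG htop⟩
  · rw [hG'd]
    exact hdeg
  · change y i = c * q.eval (algebraMap k K (a i)) * (y i / q.eval (algebraMap k K (a i)) / c)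
    by_cases h0 : q.eval (algebraMap k K (a i)) = 0
    · rw [h0, mul_zero, zero_mul]
      have h1 := hev i
      rw [h0, zero_pow (by omega), zero_mul] at h1
      exact eq_zero_of_pow_eq_zero h1.symm
    · field_simp
  · apply hinj
    rw [map_pow]
    change (y i / q.eval (algebraMap k K (a i)) / c) ^ m = _
    have h2 : algebraMap (cl k G) K (G'.eval (algebraMap k (cl k G) (a i))) =
        (G'.map (algebraMap (cl k G) K)).eval (algebraMap k K (a i)) := by
      rw [Polynomial.eval_map]
      exact (Polynomial.eval₂_at_apply (algebraMap (cl k G) K)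
        (algebraMap k (cl k G) (a i))).symm
    rw [h2, hG', eval_mul, eval_C, div_pow, div_pow, ← hev i, mul_div_right_comm,
      div_self (pow_ne_zero _ hi), one_mul, div_eq_mul_inv, mul_comm]
  · have h1 : p.map (algebraMap (cl k G) K) ^ m ∣ G := by
      have h2 : p.map (algebraMap (cl k G) K) ^ m ∣ C (c ^ m)⁻¹ * G := by
        rw [← hG', ← Polynomial.map_pow]
        exact Polynomial.map_dvd _ hdvd
      have h3 := h2.mul_left (C (c ^ m))
      rwa [← mul_assoc, ← C_mul, mul_inv_cancel₀ (pow_ne_zero _ hc0), C_1, one_mul] at h3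
    have hp0 : p.map (algebraMap (cl k G) K) ≠ 0 := Polynomial.map_ne_zero hp.ne_zero
    obtain ⟨p', q', hp', hpq⟩ := exists_irr hp0 (by
      rw [natDegree_map]
      exact hp.natDegree_pos)
    apply hG p' hp'
    refine (pow_dvd_pow_of_dvd ?_ m).trans h1
    rw [hpq]
    exact Dvd.intro _ rfl

/-- the function field is generated by the coefficients of `q` -/
theorem gen_top {B : IntermediateField k K} {q : K[X]} (hq : q.Monic) {a : Fin (N + 1) → k}
    {y : Fin (N + 1) → K} {c : K} {z : Fin (N + 1) → B} (hc : c ≠ 0)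
    (hgen : coords k y = ⊤)
    (hy : ∀ i, y i = c * q.eval (algebraMap k K (a i)) * (z i : K)) :
    IntermediateField.adjoin B (Set.range fun j : Fin q.natDegree => q.coeff j) = ⊤ := by
  have h1 : (⊤ : IntermediateField k K) ≤
      (IntermediateField.adjoin B (Set.range fun j : Fin q.natDegree =>
        q.coeff j)).restrictScalars k := by
    rw [← hgen]
    conv_lhs => unfold coords
    rw [IntermediateField.adjoin_le_iff]
    rintro _ ⟨i, j, hj, rfl⟩
    set M := IntermediateField.adjoin B (Set.range fun j : Fin q.natDegree => q.coeff j) with hM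
    have hconst : ∀ c : k, algebraMap k K c ∈ M := by
      intro c
      have := M.algebraMap_mem (algebraMap k B c)
      rwa [← IsScalarTower.algebraMap_apply k B K] at this
    have hev : ∀ i, q.eval (algebraMap k K (a i)) ∈ M := by
      intro i
      rw [Polynomial.eval_eq_sum_range]
      refine M.sum_mem fun j hj => ?_
      refine mul_mem ?_ (pow_mem (hconst _) j)
      rw [Finset.mem_range, Nat.lt_succ_iff] at hj
      rcases hj.lt_or_eq with h | h
      · exact IntermediateField.subset_adjoin B _ ⟨⟨j, h⟩, rfl⟩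
      · rw [h, hq.coeff_natDegree]
        exact M.one_mem
    have hzM : ∀ i, (z i : K) ∈ M := fun i => M.algebraMap_mem (z i)
    have e : y i / y j = (q.eval (algebraMap k K (a i)) / q.eval (algebraMap k K (a j))) *
        ((z i : K) / z j) := by
      rw [hy i, hy j, mul_assoc, mul_assoc, mul_div_mul_left _ _ hc, mul_div_mul_comm]
    rw [e]
    exact M.mul_mem (M.div_mem (hev i) (hev j)) (M.div_mem (hzM i) (hzM j))
  rw [eq_top_iff]
  intro x _
  exact h1 (IntermediateField.mem_top (x := x))

/-- the dimension of a field generated by `r` elements over `B` -/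
theorem dims {B : IntermediateField k K} {b r w : ℕ} (hB : Algebra.trdeg k B = b)
    (hK : Algebra.trdeg k K = w) {x : Fin r → K}
    (hx : IntermediateField.adjoin B (Set.range x) = ⊤) :
    w ≤ b + r ∧ (w = b + r → AlgebraicIndependent B x) ∧
      (w = b → Algebra.IsAlgebraic B K) := by
  have hfin : Algebra.trdeg B K ≤ (r : Cardinal) := by
    have h1 : Algebra.IsAlgebraic (Algebra.adjoin B (Set.range x)) K := by
      rw [← IntermediateField.isAlgebraic_adjoin_iff_top, hx]
      infer_instance
    have h2 := Algebra.IsAlgebraic.trdeg_le_cardinalMk B (Set.range x)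
    refine h2.trans ?_
    have h3 := Cardinal.mk_range_le (f := x)
    rwa [Cardinal.mk_fin] at h3
  obtain ⟨e, he⟩ := Cardinal.lt_aleph0.1 (hfin.trans_lt (Cardinal.natCast_lt_aleph0))
  have hadd := _root_.trdeg_add_eq (R := k) (S := B) (A := K)
  rw [hB, hK, he] at hadd
  have hadd' : b + e = w := by exact_mod_cast hadd
  have her : e ≤ r := by
    rw [he] at hfin
    exact_mod_cast hfin
  refine ⟨by omega, fun h => ?_, fun h => ?_⟩
  · have h1 : Algebra.IsAlgebraic (Algebra.adjoin B (Set.range x)) K := by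
      rw [← IntermediateField.isAlgebraic_adjoin_iff_top, hx]
      infer_instance
    have h2 := Algebra.IsAlgebraic.isTranscendenceBasis_of_le_trdeg_of_finite B x (by
      rw [he, Cardinal.mk_fin]
      have : e = r := by omega
      rw [this])
    exact h2.1
  · have h1 : e = 0 := by omega
    rw [h1, Nat.cast_zero] at he
    exact _root_.trdeg_eq_zero_iff.1 he

theorem transc_restrict {B : IntermediateField k K} {C : IntermediateField B K} {σ : K}
    (h : Transcendental C σ) : Transcendental (C.restrictScalars k) σ := by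
  rintro ⟨p, hp, hp'⟩
  exact h ⟨p, hp, hp'⟩

theorem adjoin_restrict {B : IntermediateField k K} {C : IntermediateField B K} {σ : K}
    (h : ∀ D : Subfield K, (C : Set K) ⊆ D → σ ∈ D → D = ⊤) :
    IntermediateField.adjoin (C.restrictScalars k) {σ} = ⊤ := by
  have h1 := h (IntermediateField.adjoin (C.restrictScalars k) {σ}).toSubfield
    (fun u hu => IntermediateField.algebraMap_mem _ (⟨u, hu⟩ : C.restrictScalars k))
    (IntermediateField.mem_adjoin_simple_self _ _)
  rw [eq_top_iff]
  intro u _
  have h2 : u ∈ (IntermediateField.adjoin (C.restrictScalars k) {σ}).toSubfield := by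
    rw [h1]
    trivial
  exact h2

/-- a purely transcendental extension is ruled -/
theorem ruled_of_indep {B : IntermediateField k K} {r : ℕ} (hr : 0 < r) {x : Fin r → K}
    (hx : IntermediateField.adjoin B (Set.range x) = ⊤) (hind : AlgebraicIndependent B x) :
    ∃ (C : IntermediateField k K) (σ : K), Transcendental C σ ∧
      IntermediateField.adjoin C {σ} = ⊤ := by
  refine ⟨(IntermediateField.adjoin B (x '' {j | j ≠ ⟨0, hr⟩})).restrictScalars k, x ⟨0, hr⟩,
    transc_restrict ?_, adjoin_restrict ?_⟩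
  · have h1 := hind.transcendental_adjoin (s := {j | j ≠ ⟨0, hr⟩}) (i := ⟨0, hr⟩)
      (fun h => h rfl)
    exact IntermediateField.transcendental_adjoin_iff.2 h1
  · intro D hD hσ
    rw [eq_top_iff]
    intro u _
    have h2 : u ∈ IntermediateField.adjoin B (Set.range x) := by
      rw [hx]
      exact IntermediateField.mem_top
    induction h2 using IntermediateField.adjoin_induction with
    | mem u hu =>
      obtain ⟨j, rfl⟩ := hu
      by_cases hj : j = ⟨0, hr⟩
      · rw [hj]
        exact hσ
      · exact hD (IntermediateField.subset_adjoin B _ ⟨j, hj, rfl⟩)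
    | algebraMap u => exact hD (IntermediateField.algebraMap_mem _ u)
    | add u v _ _ h h' => exact add_mem (h trivial) (h' trivial)
    | inv u _ h => exact inv_mem (h trivial)
    | mul u v _ _ h h' => exact mul_mem (h trivial) (h' trivial)

/-- **The closed subvarieties.** -/
theorem trichotomy [IsAlgClosed k] [CharZero k] {w : ℕ}
    (hm : 2 ≤ m) (hn : n ≤ N) (hN : 4 * n + (n + 1) ^ 2 < 2 * (N + 1)) {a : Fin (N + 1) → k}
    (ha : Function.Injective a) {y : Fin (N + 1) → K} (hy : SubVar (buchi a n m) K w y) :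
    ∃ (B : IntermediateField k K) (b r : ℕ) (x : Fin r → K),
      (∀ u : K, IsAlgebraic B u → u ∈ B) ∧ GeneralType k B b ∧
      IntermediateField.adjoin B (Set.range x) = ⊤ ∧ r * m ≤ n ∧ b ≤ w ∧ w ≤ b + r ∧
      (w = b → Psef k K w (fun _ => False) ∧ GeneralType k K w) ∧
      (w = b + r → 0 < r → ¬ Psef k K w (fun _ => False) ∧ Ruled k K) := by
  set H := intp a hn (fun i => y i ^ m) with hHd
  have hev : ∀ i, H.eval (algebraMap k K (a i)) = y i ^ m := intp_eval ha hn m hy.mem
  obtain ⟨B, b, q, G, c, z, hbw, hcl, hgt, hq, hdeg, hc, hyz, -, -, htop⟩ :=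
    fibration hy.dim hm hN a ha y hy.ne H (intp_natDegree ha hn _) (fun i => (hev i).symm)
  have hgen := gen_top hq hc hy.gen hyz
  obtain ⟨h1, h2, h3⟩ := dims hgt.1 hy.dim hgen
  refine ⟨B, b, q.natDegree, _, hcl, hgt, hgen, by omega, hbw, h1, fun h => ?_, fun h hr => ?_⟩
  · have h4 := h3 h
    have h5 := htop fun u => hcl u (h4.isAlgebraic u)
    exact ⟨psef_of_kodGe (kod_of_general h5), h5⟩
  · obtain ⟨C, σ, h5, h6⟩ := ruled_of_indep hr hgen (h2 h)
    exact ⟨not_psef_of hy.dim C h5 h6, C, σ, h5, h6⟩

end Pool.Agent.Y190.SN
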