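import Pool.Agent.Y190.SN.Fibg

/-!
The equivalence of Lang, the Kodaira dimension and ruledness, for polynomials of any degree.
-/

set_option autoImplicit false

set_option linter.unusedSectionVars false

open FF Pool.Agent.W603.LV Pool.Agent.W602.GT Pool.Agent.Y190.BV

namespace Pool.Agent.Y190.SN

variable {k : Type} [Field k] {N : ℕ} {K : Type} [Field K] [Algebra k K] {n m w : ℕ} {ι : Type}

section

variable [IsAlgClosed k] [CharZero k]

/-- a subvariety which is not of general type is covered by lines -/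
theorem line_of_not_gt (hm : 2 ≤ m) (hn : n ≤ N) (hN : 4 * n + (n + 1) ^ 2 < 2 * (N + 1))
    {a : Fin (N + 1) → k} (ha : Function.Injective a) {F : ι → MvPolynomial (Fin (N + 1)) k}
    (hF : ∀ e, IsForm (F e)) (hsub : Cone F ⊆ Cone (buchi a n m)) {y : Fin (N + 1) → K}
    (hy : SubVar F K w y) (hs : Simple m (intp a hn (fun i => y i ^ m)))
    (hgt : ¬ GeneralType k K w)
    (hgen : ∀ G : MvPolynomial (Fin (N + 1)) k, IsForm G →
      (val y G = 0 ↔ ∀ x ∈ Cone F, val x G = 0)) : SpLine F = Cone F := by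
  refine Set.Subset.antisymm (fun x hx => hx.1) fun x hx => ⟨hx, fun G hG hL => ?_⟩
  have hchK : CharZero K := charZero_of_injective_algebraMap (algebraMap k K).injective
  have hinfK : Infinite K := inferInstance
  have hy' : SubVar (buchi a n m) K w y := ⟨hy.ne, sub_ext hsub hy.ne hy.mem, hy.gen, hy.dim⟩
  obtain ⟨hmn, t, z, hyz, hz, ⟨i, j, hij, hi, hj⟩, htr, htop⟩ :=
    structure_thm hm hn hN ha hy' hs hgt
  refine (hgen G hG).1 (mem_closure y z ⟨i, j, ?_⟩
    (fun c c' e => line_vanish hyz hi htr (hF e) (hy.mem e) c c') hL) x hx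
  rw [hyz i, hyz j]
  have e : (algebraMap k K (a i) - t) * z i * z j - (algebraMap k K (a j) - t) * z j * z i =
      algebraMap k K (a i - a j) * (z i * z j) := by
    rw [map_sub]; ring
  rw [e]
  exact mul_ne_zero ((_root_.map_ne_zero _).2 (sub_ne_zero.2 fun h => hij (ha h)))
    (mul_ne_zero hi hj)

/-- **The equivalence of Lang, pseudo-effectivity, the Kodaira dimension and ruledness.** -/
theorem lang_simple (hm : 2 ≤ m) (hn : n ≤ N) (hN : 4 * n + (n + 1) ^ 2 < 2 * (N + 1))
    {a : Fin (N + 1) → k} (ha : Function.Injective a) {F : ι → MvPolynomial (Fin (N + 1)) k}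
    (hF : ∀ e, IsForm (F e)) (hsub : Cone F ⊆ Cone (buchi a n m)) {y : Fin (N + 1) → K}
    (hy : SubVar F K w y) (hs : Simple m (intp a hn (fun i => y i ^ m)))
    (hgen : ∀ G : MvPolynomial (Fin (N + 1)) k, IsForm G →
      (val y G = 0 ↔ ∀ x ∈ Cone F, val x G = 0)) :
    [¬ KodGe k K w (fun _ => False) 0, ¬ Psef k K w (fun _ => False), Ruled k K,
      SpLine F = Cone F, SpGm F = Cone F, SpAlg F = Cone F, ¬ GeneralType k K w].TFAE := by
  have hinf : Infinite k := inferInstance
  have h1 : SpLine F ⊆ SpGm F := line_sub_gm _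
  have h2 : SpGm F ⊆ SpAlg F := gm_sub_alg hF
  have h3 : SpAlg F ⊆ Cone F := fun x hx => hx.1
  tfae_have 7 → 4 := fun h => line_of_not_gt hm hn hN ha hF hsub hy hs h hgen
  tfae_have 4 → 5 := fun h => Set.Subset.antisymm (h2.trans h3) (h.symm.subset.trans h1)
  tfae_have 5 → 6 := fun h => Set.Subset.antisymm h3 (h.symm.subset.trans h2)
  tfae_have 6 → 3 := by
    intro heq
    obtain ⟨t, z, -, ht, htop⟩ := ruled_of_dense hm hn hN ha hsub hy hs
      (fun G hG h => (hgen G hG).1 h) fun G hG hGy => by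
        by_contra hcon
        push Not at hcon
        refine (alg_ne_iff hgen).2 ⟨G, hG, hGy, ?_⟩ heq
        intro K' _ _ w' x _ hx hgt
        by_contra hne
        exact hne (hcon K' inferInstance inferInstance w' x hx hgt)
    exact ⟨coords k z, t, ht, htop⟩
  tfae_have 3 → 2 := by
    rintro ⟨C, t, ht, htop⟩
    exact not_psef_of hy.dim C ht htop
  tfae_have 2 → 1 := fun h h' => h (psef_of_kodGe h')
  tfae_have 1 → 7 := fun h h' => h (kod_of_general h')
  tfae_finish

/-- the interpolation polynomial is the polynomial -/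
theorem intp_eq {a : Fin (N + 1) → k} (ha : Function.Injective a) (hn : n ≤ N)
    {y : Fin (N + 1) → K} {H : Polynomial K} (hH : H.natDegree ≤ n)
    (hyH : ∀ i, y i ^ m = H.eval (algebraMap k K (a i))) :
    intp a hn (fun i => y i ^ m) = H := by
  have h1 := mem_of_poly a n m y H hH (fun i => (hyH i).symm)
  have h2 := intp_eval ha hn m h1
  rw [← sub_eq_zero]
  by_contra hne
  apply hne
  refine Polynomial.eq_zero_of_natDegree_lt_card_of_eval_eq_zero _
    (f := fun i : Fin (N + 1) => algebraMap k K (a i))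
    (fun i j h => ha ((algebraMap k K).injective h)) (fun i => ?_) ?_
  · rw [Polynomial.eval_sub, h2, hyH, sub_self]
  · rw [Fintype.card_fin]
    have h4 := intp_natDegree (K := K) ha hn (fun i => y i ^ m)
    have h5 := Polynomial.natDegree_sub_le (intp a hn (fun i => y i ^ m)) H
    omega

end

end Pool.Agent.Y190.SN
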