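import Pool.Agent.Y190.SN.Lang
import Pool.Agent.Y190.QP.StrU
import Pool.Agent.Y190.QP.SpB

/-!
The closed subvarieties of the complement of three or more coordinate hyperplanes are of logarithmic
general type; for polynomials of any degree.
-/

set_option autoImplicit false

open FF Pool.Agent.W603.LV Pool.Agent.W602.GT Pool.Agent.Y190.BV Polynomial Pool.Agent.Y190.QP

namespace Pool.Agent.Y190.SN

variable {k K : Type} [Field k] [Field K] [Algebra k K]

section

variable [IsAlgClosed k] [CharZero k] {N n m w : ℕ}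

/-- **Three punctures.** -/
theorem lgt_threeS (hm : 2 ≤ m) (hnN : n ≤ N) (hN : 4 * n + (n + 1) ^ 2 < 2 * (N + 1))
    {a : Fin (N + 1) → k} (ha : Function.Injective a) {y : Fin (N + 1) → K}
    (hy : SubVar (buchi a n m) K w y) (hsim : Simple m (intp a hnN (fun i => y i ^ m)))
    {U : Set (Fin (N + 1))} (hyU : ∀ j ∈ U, y j ≠ 0)
    {jj : Fin 3 → Fin (N + 1)} (hjj : Function.Injective jj) (hjU : ∀ i, jj i ∈ U) :
    LogGeneralType k K w (OffU U y) := by
  classical
  have hn4 := four_lt hN
  by_cases hgt : GeneralType k K w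
  · exact lgt_of_gt hgt
  obtain ⟨hmn, t, z, hyz, hzb, -, htr, htop⟩ := structure_thm hm hnN hN ha hy hsim hgt
  have hchK : CharZero K := charZero_of_injective_algebraMap (algebraMap k K).injective
  have hinf : Infinite k := inferInstance
  have hn' : n - m ≤ N := by omega
  have hzU : ∀ j ∈ U, z j ≠ 0 := by
    intro j hj h0
    apply hyU j hj
    rw [hyz, h0, mul_zero]
  have hat : ∀ i, algebraMap k K (a i) - t ≠ 0 := by
    intro i h
    apply htr
    have h1 : t = algebraMap (coords k z) K (algebraMap k (coords k z) (a i)) := by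
      rw [← IsScalarTower.algebraMap_apply k (coords k z) K]
      exact (sub_eq_zero.1 h).symm
    rw [h1]
    exact isAlgebraic_algebraMap _
  set H := intp a hn' (fun i => z i ^ m) with hHd
  have hev : ∀ i, H.eval (algebraMap k K (a i)) = z i ^ m := intp_eval ha hn' m hzb
  have hz0 : z (jj 0) ≠ 0 := hzU _ (hjU 0)
  have hH : H ≠ 0 := by
    intro h0
    have h1 := hev (jj 0)
    rw [h0, Polynomial.eval_zero] at h1
    exact hz0 (eq_zero_of_pow_eq_zero h1.symm)
  have hHdeg : H.natDegree ≤ n - m := intp_natDegree ha hn' _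
  -- the dimension
  obtain ⟨w', rfl⟩ : ∃ w', w = w' + 1 := by
    rcases Nat.eq_zero_or_pos w with h | h
    · exfalso
      have h1 := hy.dim
      rw [h, Nat.cast_zero] at h1
      have h2 : Algebra.IsAlgebraic k K := _root_.trdeg_eq_zero_iff.1 h1
      exact htr ((h2.isAlgebraic t).tower_top (coords k z))
    · exact ⟨w - 1, by omega⟩
  obtain ⟨T, e, u, hu, hT, hHT, hTall⟩ := factor hH
  set T1 : Finset K[X] := T.filter (fun p => ∀ c : k, p.eval (algebraMap k K c) ≠ 0) with hT1
  set T0 : Finset K[X] := T.filter (fun p => ¬ ∀ c : k, p.eval (algebraMap k K c) ≠ 0) with hT0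
  set G : K[X] := ∏ p ∈ T1, p with hG
  have hT1T : ∀ p ∈ T1, p ∈ T := fun p hp => (Finset.mem_filter.1 hp).1
  have hyH : intp a hnN (fun i => y i ^ m) = (X - C t) ^ m * H := by
    refine intp_eq ha hnN ?_ fun i => ?_
    · refine (natDegree_mul_le).trans ?_
      rw [natDegree_pow, natDegree_X_sub_C, mul_one]
      omega
    · rw [eval_mul, eval_pow, eval_sub, eval_X, eval_C, hev, hyz i, mul_pow]
  have hem : ∀ p ∈ T, e p < m := by
    intro p hp
    by_contra hcon
    push Not at hcon
    have h1 : p ^ m ∣ H := (pow_dvd_pow p hcon).trans (hT p hp).2.2.2.2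
    have h2 : ((X - C t) * p) ^ m ∣ intp a hnN (fun i => y i ^ m) := by
      rw [hyH, mul_pow]
      exact mul_dvd_mul dvd_rfl h1
    have h3 := hsim _ h2
    rw [natDegree_mul (X_sub_C_ne_zero t) (hT p hp).1.ne_zero, natDegree_X_sub_C] at h3
    have h4 := (hT p hp).1.natDegree_pos
    omega
  have hGsep : G.Separable := by
    refine Polynomial.separable_prod' ?_ ?_
    · intro p hp r hr hpr
      exact coprime_of_ne (hT p (hT1T p hp)).1 (hT r (hT1T r hr)).1 (hT p (hT1T p hp)).2.1
        (hT r (hT1T r hr)).2.1 hpr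
    · intro p hp
      exact (hT p (hT1T p hp)).1.separable
  have hG0 : G ≠ 0 := hGsep.ne_zero
  have hGa : ∀ i, G.eval (algebraMap k K (a i)) ≠ 0 := by
    intro i
    rw [hG, Polynomial.eval_prod]
    exact Finset.prod_ne_zero_iff.2 fun p hp => (Finset.mem_filter.1 hp).2 _
  -- the good nodes
  let I1 : Finset (Fin (N + 1)) :=
    Finset.univ.filter fun i => H.eval (algebraMap k K (a i)) ≠ 0
  let I0 : Finset (Fin (N + 1)) :=
    Finset.univ.filter fun i => ¬ H.eval (algebraMap k K (a i)) ≠ 0
  have hI : I1.card + I0.card = N + 1 := by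
    have := Finset.card_filter_add_card_filter_not (s := (Finset.univ : Finset (Fin (N + 1))))
      (fun i => H.eval (algebraMap k K (a i)) ≠ 0)
    rw [Finset.card_univ, Fintype.card_fin] at this
    exact this
  have hdegT : ∑ p ∈ T, p.natDegree ≤ n - m := by
    have h1 : (∏ p ∈ T, p) ∣ H := by
      rw [hHT]
      refine Dvd.dvd.mul_left ?_ _
      exact Finset.prod_dvd_prod_of_dvd _ _ fun p hp =>
        dvd_pow_self p (by have := (hT p hp).2.2.2.1; omega)
    have h2 := Polynomial.natDegree_le_of_dvd h1 hH
    rw [Polynomial.natDegree_prod _ _ fun p hp => (hT p hp).1.ne_zero] at h2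
    exact h2.trans hHdeg
  have hdegG : G.natDegree = ∑ p ∈ T1, p.natDegree := by
    rw [hG, Polynomial.natDegree_prod _ _ fun p hp => (hT p (hT1T p hp)).1.ne_zero]
  have hI0T : I0.card ≤ ∑ p ∈ T0, p.natDegree := by
    have h1 : I0.card ≤ T0.card := by
      refine Finset.card_le_card_of_injOn (fun i => X - C (algebraMap k K (a i))) ?_ ?_
      · intro i hi
        have hi2 := (Finset.mem_filter.1 hi).2
        rw [not_not] at hi2
        refine Finset.mem_coe.2 (Finset.mem_filter.2 ⟨hTall _ (Polynomial.irreducible_X_sub_C _)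
          (Polynomial.monic_X_sub_C _) (Polynomial.dvd_iff_isRoot.2 hi2), ?_⟩)
        push Not
        exact ⟨a i, by simp⟩
      · intro i _ j _ hij
        have h2 := Polynomial.C_injective (sub_right_injective hij)
        exact ha ((algebraMap k K).injective h2)
    refine h1.trans ?_
    rw [Finset.card_eq_sum_ones]
    refine Finset.sum_le_sum fun p hp => ?_
    exact (hT p (Finset.mem_filter.1 hp).1).1.natDegree_pos
  have hsplitT : ∑ p ∈ T1, p.natDegree + ∑ p ∈ T0, p.natDegree = ∑ p ∈ T, p.natDegree :=
    Finset.sum_filter_add_sum_filter_not _ _ _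
  have hdz : G.natDegree + I0.card ≤ n := by omega
  let ee := I1.equivFin.symm
  have hee : ∀ i, H.eval (algebraMap k K (a (ee i))) ≠ 0 := fun i =>
    (Finset.mem_filter.1 (ee i).2).2
  -- the Galois extension
  let L := G.SplittingField
  have hgal : IsGalois K L := IsGalois.of_separable_splitting_field hGsep
  have hGs : (G.map (algebraMap K L)).Splits := Polynomial.SplittingField.splits G
  -- the roots are algebraic over the field of the coordinates
  have hrC : ∀ s ∈ G.rootSet L, IsAlgebraic (coords k z) s := by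
    intro s hs
    rw [Polynomial.mem_rootSet] at hs
    have hsH : aeval s H = 0 := by
      rw [hHT, map_mul, map_prod]
      have h1 : ∏ p ∈ T1, aeval s p = 0 := by
        rw [← map_prod]
        exact hs.2
      obtain ⟨p, hp, hp2⟩ := Finset.prod_eq_zero_iff.1 h1
      rw [Finset.prod_eq_zero (hT1T p hp), mul_zero]
      rw [map_pow, hp2, zero_pow]
      have := (hT p (hT1T p hp)).2.2.2.1
      omega
    -- a multiple with coefficients in the field of the coordinates
    let Q : (coords k z)[X] := ∑ l : Fin (n - m + 1),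
      C (⟨z (Fin.castLE (by omega) l) / z (jj 0), IntermediateField.subset_adjoin k _
        ⟨_, _, hz0, rfl⟩⟩ ^ m : coords k z) * (bas a hn' l).map (algebraMap k (coords k z))
    have hQ : Q.map (algebraMap (coords k z) K) = C ((z (jj 0) ^ m)⁻¹) * H := by
      rw [hHd]
      unfold intp
      rw [Polynomial.map_sum, Finset.mul_sum]
      refine Finset.sum_congr rfl fun l _ => ?_
      rw [Polynomial.map_mul, Polynomial.map_C, Polynomial.map_map, ← mul_assoc, ← C_mul,
        ← IsScalarTower.algebraMap_eq, map_pow]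
      congr 2
      change (z (Fin.castLE _ l) / z (jj 0)) ^ m = _
      rw [div_pow, div_eq_inv_mul]
    refine ⟨Q, ?_, ?_⟩
    · intro h0
      rw [h0, Polynomial.map_zero] at hQ
      exact mul_ne_zero (C_ne_zero.2 (inv_ne_zero (pow_ne_zero _ hz0))) hH hQ.symm
    · have h1 : aeval s (Q.map (algebraMap (coords k z) K)) = aeval s Q :=
        Polynomial.aeval_map_algebraMap _ _ _
      rw [← h1, hQ, map_mul, hsH, mul_zero]
  -- the coordinates are algebraic over the roots
  set L0 := IntermediateField.adjoin k (G.rootSet L) with hL0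
  have hpL : ∀ p ∈ T, ∀ c : k, algebraMap K L (p.eval (algebraMap k K c)) ∈ L0 := by
    intro p hp c
    by_cases h : ∀ c : k, p.eval (algebraMap k K c) ≠ 0
    · have hp1 : p ∈ T1 := Finset.mem_filter.2 ⟨hp, h⟩
      have hpd : p ∣ G := Finset.dvd_prod_of_mem _ hp1
      have hps : (p.map (algebraMap K L)).Splits :=
        hGs.of_dvd (Polynomial.map_ne_zero hG0) (Polynomial.map_dvd _ hpd)
      have h1 := hps.eq_prod_roots
      have h2 := coeff_mem L0 (p.map (algebraMap K L)).roots (fun s hs => by
        apply IntermediateField.subset_adjoin k _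
        rw [Polynomial.mem_rootSet]
        refine ⟨hG0, ?_⟩
        rw [Polynomial.mem_roots (Polynomial.map_ne_zero (hT p hp).1.ne_zero),
          Polynomial.IsRoot, Polynomial.eval_map_algebraMap] at hs
        obtain ⟨r, hr⟩ := hpd
        have e1 : aeval s G = aeval s p * aeval s r := by rw [← map_mul, ← hr]
        rw [e1, hs, zero_mul])
      have h3 : ∀ j, algebraMap K L (p.coeff j) ∈ L0 := by
        intro j
        rw [← Polynomial.coeff_map, h1, Polynomial.leadingCoeff_map, (hT p hp).2.1.leadingCoeff,
          map_one, map_one, one_mul]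
        exact h2 j
      rw [Polynomial.eval_eq_sum_range, map_sum]
      refine L0.sum_mem fun j _ => ?_
      rw [map_mul, map_pow, ← IsScalarTower.algebraMap_apply]
      exact L0.mul_mem (h3 j) (pow_mem (L0.algebraMap_mem c) _)
    · push Not at h
      obtain ⟨c', hc'⟩ := h
      rw [eq_X_sub_C (hT p hp).1 (hT p hp).2.1 hc', Polynomial.eval_sub, Polynomial.eval_X,
        Polynomial.eval_C, ← map_sub, ← IsScalarTower.algebraMap_apply]
      exact L0.algebraMap_mem _
  have hzL : ∀ i j, z j ≠ 0 → IsAlgebraic L0 (algebraMap K L (z i / z j)) := by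
    intro i j hj
    have h1 : algebraMap K L (z i / z j) ^ m ∈ L0 := by
      have hu' : C u ≠ 0 := C_ne_zero.2 hu
      rw [← map_pow, div_pow, ← hev i, ← hev j, hHT, Polynomial.eval_mul, Polynomial.eval_mul,
        Polynomial.eval_C, Polynomial.eval_C, mul_div_mul_left _ _ hu, map_div₀]
      have h2 : ∀ c : k, algebraMap K L ((∏ p ∈ T, p ^ e p).eval (algebraMap k K c)) ∈ L0 := by
        intro c
        rw [Polynomial.eval_prod, map_prod]
        refine L0.prod_mem fun p hp => ?_
        rw [Polynomial.eval_pow, map_pow]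
        exact pow_mem (hpL p hp c) _
      exact L0.div_mem (h2 _) (h2 _)
    exact IsAlgebraic.of_pow (by omega) (isAlgebraic_algebraMap (⟨_, h1⟩ : L0))
  have hram : ∀ (P : Place k K) (i : Fin (N + 1)), H.eval (algebraMap k K (a i)) ≠ 0 →
      ct P G (a i) = 0 ∨ 2 ≤ ct P G (a i) := fun P i hi =>
    Pool.Agent.Y190.AN.ram_aux hm hn' a ha H hH hHdeg (fun i => ⟨z i, (hev i).symm⟩) hu hT hHT
      hem (Finset.filter_subset _ _)
      (fun p hp hp1 => by
        by_contra hcon
        push Not at hcon
        exact hp1 (Finset.mem_filter.2 ⟨hp, hcon⟩))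
      (fun p hp => (Finset.mem_filter.1 hp).2) P i hi
  refine core_t (L := L) (w := w') (by rw [hy.dim]) G hGsep hGs t (trans_of_alg htr hrC)
    (alg_root_t htop rfl L0 (by
      rintro _ ⟨i, j, hj, rfl⟩
      exact hzL i j hj)) (fun i => a (ee i))
    (fun i j hij => ee.injective (Subtype.ext (ha hij))) 2 (fun _ => 1) (fun _ => by norm_num) ?_
    (fun i => hGa _) (fun i => a (jj i)) (fun i j hij => hjj (ha hij)) _ ?_ ?_
  · rw [Finset.sum_const, Finset.card_univ, Fintype.card_fin, smul_eq_mul, mul_one]
    exact wbound hN hdz hI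
  · -- the boundary
    rintro P ⟨i0, hi0⟩
    set j0 := jj i0 with hj0
    have hta : ∀ i, t - algebraMap k K (a i) ≠ 0 := fun i h => hat i (by
      rw [← neg_eq_zero, neg_sub]; exact h)
    have hord : ∀ i, P.ord (algebraMap k K (a i) - t) = P.ord (t - algebraMap k K (a i)) := by
      intro i
      rw [← neg_sub, P.ord_neg]
    -- a node with minimal order
    have hcard : n - m + 1 ≤ N := by omega
    obtain ⟨N', rfl⟩ : ∃ N', N = N' + 1 := ⟨N - 1, by omega⟩
    obtain ⟨s, hs, hs2⟩ := exists_good P hH hHdeg (fun i : Fin (n - m + 1) =>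
      a (j0.succAbove (Fin.castLE (by omega) i)))
      (fun x y hxy => Fin.castLE_injective _ (Fin.succAbove_right_injective (ha hxy)))
    set i1 := j0.succAbove (Fin.castLE (by omega) s) with hi1
    have hi1j : i1 ≠ j0 := Fin.succAbove_ne _ _
    have hz1 : z i1 ≠ 0 := by
      intro h0
      rw [hev, h0, zero_pow (by omega)] at hs
      exact hs rfl
    have hzj : z j0 ≠ 0 := hzU _ (hjU i0)
    refine ⟨j0, hjU i0, i1, ?_, ?_⟩
    · rw [hyz]
      exact mul_ne_zero (hat i1) hz1
    · rw [hyz i1, hyz j0, P.ord_mul (hat i1) hz1, P.ord_mul (hat j0) hzj, hord, hord]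
      have h1 : P.ord (z i1) ≤ P.ord (z j0) := by
        have h2 : P.ord (z i1 ^ m) ≤ P.ord (z j0 ^ m) := by
          rw [← hev, ← hev, hs2]
          exact (cnt_eval P H (a j0)).resolve_left (by
            rw [hev]; exact pow_ne_zero _ hzj)
        rw [P.ord_pow, P.ord_pow] at h2
        have hm0 : (0 : ℤ) < m := by exact_mod_cast (by omega : 0 < m)
        exact le_of_mul_le_mul_left h2 hm0
      have h3 : P.ord (t - algebraMap k K (a i1)) ≤ 0 := by
        by_contra hcon
        push Not at hcon
        have h4 : Ge P 1 (t - algebraMap k K (a i1)) := Or.inr (by omega)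
        have h5 : Ge P 1 (t - algebraMap k K (a j0)) := Or.inr (by
          have : 0 < P.ord (t - algebraMap k K (a j0)) := hi0
          omega)
        have h6 := h4.sub h5
        have e1 : t - algebraMap k K (a i1) - (t - algebraMap k K (a j0)) =
            algebraMap k K (a j0 - a i1) := by
          rw [map_sub]; ring
        rw [e1] at h6
        have hne : a j0 - a i1 ≠ 0 := sub_ne_zero.2 fun h => hi1j (ha h.symm)
        rcases h6 with h6 | h6
        · exact hne ((map_eq_zero _).1 h6)
        · rw [P.ord_const hne] at h6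
          omega
      have h7 : 0 < P.ord (t - algebraMap k K (a j0)) := hi0
      omega
  · intro P _ _ j0 hj0 hj1 i
    have h1 : P.ord (G.coeff j0) = cnt P G := by
      refine (cnt_unique P (fun j => ?_) ⟨j0, hj0, rfl⟩).symm
      exact hj1 j
    rw [h1]
    rcases hram P (ee i) (hee i) with h2 | h2
    · left
      unfold ct at h2
      omega
    · right
      unfold ct at h2
      push_cast
      linarith

end

end Pool.Agent.Y190.SN
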