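import Pool.Agent.Y190.SN.An
import Pool.Agent.Y190.SN.StrU

/-!
The special sets of the varieties of powers of values of polynomials of any degree.
-/

set_option autoImplicit false

open Filter Topology Set Metric

namespace Pool.Agent.Y190.SP

open FF Pool.Agent.W603.BP Pool.Agent.W601.PH Pool.Agent.Y190.BV Pool.Agent.W603.LV
  Pool.Agent.W602.GT Pool.Agent.Y190.AN Pool.Agent.H159R3.GGLLog Pool.Agent.H159R3.NV
  Pool.Agent.Y190.QP

variable {N : ℕ} {ι : Type}

/-- holomorphic maps from the punctured disc give points over the field of meromorphic functions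
near infinity -/
theorem curve_point {U : Set (Fin (N + 1))} {F : ι → MvPolynomial (Fin (N + 1)) ℂ}
    {G : MvPolynomial (Fin (N + 1)) ℂ}
    (h : ∀ y : Fin (N + 1) → MK (exD 1 one_pos), y ≠ 0 → (∀ j ∈ U, y j ≠ 0) →
      (∀ j ∈ U, ∀ (z0 : ℂ) (hz0 : z0 ∈ (exD 1 one_pos).U), (PL hz0).ord (y j) = 0) →
      (∀ e, val y (F e) = 0) → (∃ i j, y j ≠ 0 ∧ y i / y j ∉ Minf 1 one_pos) → val y G = 0)
    (f : ℂ → Fin (N + 1) → ℂ) (hf : PCurve U F f) (hE : ¬ Extends f) (z : ℂ)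
    (hz : z ∈ ball (0 : ℂ) 1 \ {0}) : MvPolynomial.eval (f z) G = 0 := by
  have hM : ∀ i, MeromorphicOn (fun z => f z⁻¹ i) (exD 1 one_pos).U := fun i z hz =>
    (coord_an hf i z hz).meromorphicAt
  set y : Fin (N + 1) → MK (exD 1 one_pos) := fun i => cl _ (hM i) with hy
  have hzP : z ∈ PB 1 := mem_disc.1 hz
  have hext : ∀ {v : ℂ}, v ∈ Ext 1 → v⁻¹ ∈ ball (0 : ℂ) 1 \ {0} := by
    intro v hv
    have hv1 : 1 < ‖v‖ := hv
    have hv0 : v ≠ 0 := by
      rintro rfl
      rw [norm_zero] at hv1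
      linarith
    exact mem_disc.2 ⟨inv_ne_zero hv0, by
      rw [norm_inv]; exact inv_lt_one_of_one_lt₀ hv1⟩
  have hcl0 : ∀ i, cl _ (hM i) = 0 → ∀ v ∈ Ext 1, f v⁻¹ i = 0 := by
    intro i h0 v hv
    have h1 := cl_eq_zero.1 h0 v hv
    exact ((coord_an hf i v hv).frequently_zero_iff_eventually_zero.1
      h1.frequently).self_of_nhds
  have hy0 : y ≠ 0 := by
    intro h0
    apply (hf.2 z hz).1
    funext i
    have h3 := hcl0 i (congrFun h0 i) z⁻¹ (inv_mem_ext hzP)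
    rwa [inv_inv] at h3
  have hyU : ∀ j ∈ U, y j ≠ 0 := by
    intro j hj h0
    have h3 := hcl0 j h0 z⁻¹ (inv_mem_ext hzP)
    rw [inv_inv] at h3
    exact (hf.2 z hz).2.1 j hj h3
  have hyF : ∀ e, val y (F e) = 0 := by
    intro e
    rw [val_cl (F e) hM (eval_mero (F e) hM), cl_eq_zero]
    intro v hv
    have h1 : ∀ᶠ w in 𝓝 v, w ∈ Ext 1 := (Ext_open 1).mem_nhds hv
    filter_upwards [nhdsWithin_le_nhds h1] with w hw
    exact (hf.2 w⁻¹ (hext hw)).2.2 e
  have hne : ∃ i j, y j ≠ 0 ∧ y i / y j ∉ Minf 1 one_pos := by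
    by_contra hcon
    push Not at hcon
    exact hE (extends_of_minf hf hM hcon)
  have h1 : val y G = 0 := by
    refine h y hy0 hyU (fun j hj z0 hz0 => ?_) hyF hne
    have h2 : analyticOrderAt (fun z => f z⁻¹ j) z0 = ((0 : ℕ) : ℕ∞) := by
      rw [Nat.cast_zero, (coord_an hf j z0 hz0).analyticOrderAt_eq_zero]
      exact (hf.2 z0⁻¹ (hext hz0)).2.1 _ hj
    have h3 := ord_cl (hg := hM j) hz0 (coord_an hf j z0 hz0) h2
    exact_mod_cast h3
  rw [val_cl G hM (eval_mero G hM), cl_eq_zero] at h1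
  have h2 := h1 z⁻¹ (inv_mem_ext hzP)
  have h3 : AnalyticAt ℂ (fun v => MvPolynomial.eval (fun i => f v⁻¹ i) G) z⁻¹ := by
    simp only [MvPolynomial.eval_eq']
    apply Finset.analyticAt_fun_sum
    intro α _
    apply AnalyticAt.fun_mul analyticAt_const
    apply Finset.analyticAt_fun_prod
    intro j _
    exact (coord_an hf j z⁻¹ (inv_mem_ext hzP)).fun_pow _
  have h4 := (h3.frequently_zero_iff_eventually_zero.1 h2.frequently).self_of_nhds
  rw [inv_inv] at h4
  exact h4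

/-- Essential punctured curves in `X` lie in the union of the lines. -/
theorem spP_X {n m : ℕ} (hm : 2 ≤ m) (hN : 4 * n < N + 1)
    {a : Fin (N + 1) → ℂ} (ha : Function.Injective a) {F : ι → MvPolynomial (Fin (N + 1)) ℂ}
    (hF : ∀ e, IsForm (F e)) (hX : Cone F = Cone (buchi a n m)) : SpP ∅ F ⊆ SpLine F := by
  rintro x ⟨hx, h⟩
  rw [pts_eq] at hx
  refine ⟨hx, fun G hG hL => ?_⟩
  rw [val_eq]
  refine h G hG (curve_point fun y hy0 _ _ hyF hne => ?_)
  exact Pool.Agent.Y190.SN.vanish_anX hm hN ha hy0 (sub_ext hX.subset hy0 hyF) hne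
    fun b b' hb => hL b b' (line_mono hF hX.symm.subset hb)

/-- the lines are images of the multiplicative group -/
theorem spLine_subT (F : ι → MvPolynomial (Fin (N + 1)) ℂ) : SpLine F ⊆ SpT ∅ F := by
  refine Set.Subset.trans ?_ (spL_subT ∅ F)
  rintro x ⟨hx, h⟩
  have hx' : x ∈ ConeU ∅ F := by
    rw [coneU_eq, pts_eq]
    exact hx
  refine ⟨hx', fun G hG hL => h G hG fun a b hab c c' => ?_⟩
  refine line_all (hL a b ⟨hab.1, fun c c' hc hc' => ⟨fun h0 => ?_, ?_, fun e => hab.2 c c' e⟩⟩)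
    c c'
  · exact hc (LinearIndependent.pair_iff.1 hab.1 c c' h0).1
  · exact fun j hj => absurd hj (Set.notMem_empty j)

/-- **All the analytic special sets agree.** -/
theorem special_X {n m : ℕ} (hm : 2 ≤ m) (hN : 4 * n < N + 1)
    {a : Fin (N + 1) → ℂ} (ha : Function.Injective a) {F : ι → MvPolynomial (Fin (N + 1)) ℂ}
    (hF : ∀ e, IsForm (F e))
    (hX : Cone F = PowVal a n m ∨ (n < 2 * m ∧ Cone F ⊆ PowVal a n m)) :
    SpH ∅ F = SpLine F ∧ SpP ∅ F = SpLine F ∧ SpCg ∅ F = SpLine F ∧ SpT ∅ F = SpLine F := by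
  have hn : n ≤ N := by omega
  have h1 : SpP ∅ F ⊆ SpLine F := by
    rcases hX with h | ⟨h, h'⟩
    · exact spP_X (n := n) (m := m) hm hN ha hF (by rw [h, cone_buchi ha hn])
    · exact spP_sub (n := n) (m := m) hm h hN ha hF (by rw [cone_buchi ha hn]; exact h')
  have h2 := spH_sub ∅ F
  have h3 := spLine_subT F
  have h4 := spT_subH ∅ F
  refine ⟨Set.Subset.antisymm (h2.trans h1) (h3.trans h4),
    Set.Subset.antisymm h1 (h3.trans (h4.trans h2)), ?_,
    Set.Subset.antisymm (h4.trans (h2.trans h1)) h3⟩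
  rw [spCg_eq]
  exact Set.Subset.antisymm (h2.trans h1) (h3.trans h4)

end Pool.Agent.Y190.SP
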