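import Pool.Agent.Y190.BV.Lang

/-!
Polynomials which are not divisible by the `m`-th power of a polynomial of degree two.
-/

set_option autoImplicit false

set_option linter.unusedSectionVars false

open FF Pool.Agent.W603.LV Pool.Agent.W602.GT Pool.Agent.Y190.BV Polynomial

namespace Pool.Agent.Y190.SN

section

variable {K : Type} [Field K]

/-- `H` is not divisible by the `m`-th power of a polynomial of degree at least two. -/
def Simple (m : ℕ) (H : K[X]) : Prop := ∀ q : K[X], q ^ m ∣ H → q.natDegree ≤ 1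

theorem exists_irr {q : K[X]} (hq0 : q ≠ 0) (hq : 1 ≤ q.natDegree) :
    ∃ p q' : K[X], Irreducible p ∧ q = p * q' := by
  have h1 : ¬ IsUnit q := fun h => by
    have := natDegree_eq_zero_of_isUnit h
    omega
  obtain ⟨p, hp, q', hq'⟩ := WfDvdMonoid.exists_irreducible_factor h1 hq0
  exact ⟨p, q', hp, hq'⟩

theorem simple_of_split {m e : ℕ} (hm : 1 ≤ m) (he : e < 2 * m) {τ : K} {G : K[X]}
    (hG : G.eval τ ≠ 0) (hG' : ∀ p : K[X], Irreducible p → ¬ p ^ m ∣ G) :
    Simple m ((X - C τ) ^ e * G) := by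
  intro q hq
  have hG0 : G ≠ 0 := by
    rintro rfl
    exact hG eval_zero
  have hprod : (X - C τ) ^ e * G ≠ 0 := mul_ne_zero (pow_ne_zero _ (X_sub_C_ne_zero τ)) hG0
  have hq0 : q ≠ 0 := by
    rintro rfl
    rw [zero_pow (by omega)] at hq
    exact hprod (zero_dvd_iff.1 hq)
  have key : ∀ p : K[X], Irreducible p → p ∣ q → (X - C τ) ∣ p := by
    intro p hp hpq
    by_contra hnd
    have h1 : p ^ m ∣ (X - C τ) ^ e * G := (pow_dvd_pow_of_dvd hpq m).trans hq
    have h2 : IsCoprime p (X - C τ) := by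
      rcases dvd_or_isCoprime (X - C τ) p (irreducible_X_sub_C τ) with h | h
      · exact absurd h hnd
      · exact h.symm
    exact hG' p hp ((h2.pow (m := m) (n := e)).dvd_of_dvd_mul_left h1)
  by_contra hdeg
  obtain ⟨p1, q1, hp1, rfl⟩ := exists_irr hq0 (by omega)
  have h1 := key p1 hp1 (Dvd.intro _ rfl)
  have hq10 : q1 ≠ 0 := right_ne_zero_of_mul hq0
  have hp1d : p1.natDegree = 1 := by
    have h3 : Associated (X - C τ) p1 := (irreducible_X_sub_C τ).associated_of_dvd hp1 h1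
    have h4 := natDegree_eq_of_degree_eq (degree_eq_degree_of_associated h3)
    rw [← h4, natDegree_X_sub_C]
  have hq1d : 1 ≤ q1.natDegree := by
    rw [natDegree_mul hp1.ne_zero hq10] at hdeg
    omega
  obtain ⟨p2, q2, hp2, rfl⟩ := exists_irr hq10 hq1d
  have h2 := key p2 hp2 ((Dvd.intro _ rfl : p2 ∣ p2 * q2).mul_left p1)
  have h3 : (X - C τ) ^ 2 ∣ p1 * (p2 * q2) := by
    rw [sq]
    exact mul_dvd_mul h1 (h2.trans (Dvd.intro _ rfl))
  have h4 : (X - C τ) ^ (2 * m) ∣ (X - C τ) ^ e * G := by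
    rw [pow_mul]
    exact (pow_dvd_pow_of_dvd h3 m).trans hq
  obtain ⟨r, hr⟩ : ∃ r, 2 * m = e + (r + 1) := ⟨2 * m - e - 1, by omega⟩
  rw [hr, pow_add] at h4
  have h5 := (mul_dvd_mul_iff_left (pow_ne_zero e (X_sub_C_ne_zero τ))).1 h4
  have h6 : (X - C τ) ∣ G := (dvd_pow_self _ (by omega)).trans h5
  rw [dvd_iff_isRoot] at h6
  exact hG h6

theorem split_of_simple {m : ℕ} {H : K[X]} (hH : H ≠ 0) (hs : Simple m H) :
    (∀ p : K[X], Irreducible p → ¬ p ^ m ∣ H) ∨ ∃ (t : K) (e : ℕ) (G : K[X]),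
      H = (X - C t) ^ e * G ∧ m ≤ e ∧ e < 2 * m ∧ G.eval t ≠ 0 ∧
        ∀ p : K[X], Irreducible p → ¬ p ^ m ∣ G := by
  classical
  by_cases hcon : ∀ p : K[X], Irreducible p → ¬ p ^ m ∣ H
  · exact Or.inl hcon
  push Not at hcon
  obtain ⟨p, hp, hpH⟩ := hcon
  right
  have hp1 : p.natDegree = 1 := by
    have := hs p hpH
    have := hp.natDegree_pos
    omega
  obtain ⟨t, ht⟩ : ∃ t : K, p.eval t = 0 :=
    Polynomial.exists_root_of_degree_eq_one (p := p)
      ((Polynomial.degree_eq_iff_natDegree_eq_of_pos one_pos).2 hp1)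
  have htH : (X - C t) ^ m ∣ H :=
    (pow_dvd_pow_of_dvd (Polynomial.dvd_iff_isRoot.2 ht) m).trans hpH
  obtain ⟨G, hG, hGd⟩ := exists_eq_pow_rootMultiplicity_mul_and_not_dvd H hH t
  refine ⟨t, rootMultiplicity t H, G, hG, (le_rootMultiplicity_iff hH).2 htH, ?_, ?_, ?_⟩
  · by_contra hge
    push Not at hge
    have h1 : ((X - C t) ^ 2) ^ m ∣ H := by
      rw [← pow_mul]
      exact (pow_dvd_pow _ hge).trans (Dvd.intro _ hG.symm)
    have h2 := hs _ h1
    rw [natDegree_pow, natDegree_X_sub_C] at h2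
    omega
  · intro h0
    exact hGd (dvd_iff_isRoot.2 h0)
  · intro p' hp' hdvd
    have h1 : ((X - C t) * p') ^ m ∣ H := by
      rw [mul_pow, hG]
      exact mul_dvd_mul (pow_dvd_pow _ ((le_rootMultiplicity_iff hH).2 htH)) hdvd
    have h2 := hs _ h1
    rw [natDegree_mul (X_sub_C_ne_zero t) hp'.ne_zero, natDegree_X_sub_C] at h2
    have := hp'.natDegree_pos
    omega

theorem free_of_bezout {m : ℕ} {G : K[X]} {U : Fin m → K[X]}
    (hU : ∑ j : Fin m, U j * derivative^[(j : ℕ)] G = 1) (p : K[X]) (hp : Irreducible p) :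
    ¬ p ^ m ∣ G := by
  intro hdvd
  apply hp.not_isUnit
  rw [isUnit_iff_dvd_one, ← hU]
  refine Finset.dvd_sum fun j _ => ?_
  have h7 := Polynomial.pow_sub_dvd_iterate_derivative_of_pow_dvd (j : ℕ) hdvd
  exact ((dvd_pow_self _ (by have := j.2; omega)).trans h7).mul_left _

theorem simple_of_free {m : ℕ} (hm : 1 ≤ m) {G : K[X]} (hG0 : G ≠ 0)
    (hG : ∀ p : K[X], Irreducible p → ¬ p ^ m ∣ G) : Simple m G := by
  intro q hq
  have hq0 : q ≠ 0 := by
    rintro rfl
    rw [zero_pow (by omega)] at hq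
    exact hG0 (zero_dvd_iff.1 hq)
  by_contra hdeg
  obtain ⟨p, q', hp, rfl⟩ := exists_irr hq0 (by omega)
  exact hG p hp ((pow_dvd_pow_of_dvd (Dvd.intro _ rfl) m).trans hq)

theorem Simple.mul_C {m : ℕ} {H : K[X]} (h : Simple m H) {c : K} (hc : c ≠ 0) :
    Simple m (C c * H) := by
  intro q hq
  apply h q
  have h1 : H = C c⁻¹ * (C c * H) := by
    rw [← mul_assoc, ← C_mul, inv_mul_cancel₀ hc, C_1, one_mul]
  rw [h1]
  exact hq.mul_left _

theorem simple_of_deg {n m : ℕ} (hnm : n < 2 * m) {H : K[X]} (hH : H ≠ 0)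
    (hdeg : H.natDegree ≤ n) : Simple m H := by
  intro q hq
  have h1 := natDegree_le_of_dvd hq hH
  rw [natDegree_pow] at h1
  by_contra hne
  have h4 : m * 2 ≤ m * q.natDegree := Nat.mul_le_mul_left m (by omega)
  omega

end

section

variable {k : Type} [Field k] {K : Type} [Field K] [Algebra k K]

/-- specialisations of simple polynomials are simple -/
theorem simple_spec [CharZero K] {m : ℕ} (hm : 1 ≤ m) {H : K[X]} (hH : H ≠ 0)
    (hs : Simple m H) : ∃ S : Finset K, ∀ (M : Type) [Field M] [Algebra k M]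
      (R : Subalgebra k K) (θ : R →ₐ[k] M), (∀ s ∈ S, s ∈ R) → ∀ HR : Polynomial R,
      HR.map (R.val : R →+* K) = H → Simple m (HR.map (θ : R →+* M)) := by
  classical
  -- polynomials without factors of multiplicity `m`
  have hfree : ∀ G : K[X], G ≠ 0 → (∀ p : K[X], Irreducible p → ¬ p ^ m ∣ G) →
      ∃ S : Finset K, ∀ (M : Type) [Field M] [Algebra k M]
      (R : Subalgebra k K) (θ : R →ₐ[k] M), (∀ s ∈ S, s ∈ R) → ∀ GR : Polynomial R,
      GR.map (R.val : R →+* K) = G → GR.map (θ : R →+* M) ≠ 0 ∧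
        ∀ p : M[X], Irreducible p → ¬ p ^ m ∣ GR.map (θ : R →+* M) := by
    intro G hG hGf
    obtain ⟨U, hU⟩ := bezout hG hGf
    refine ⟨Finset.univ.biUnion fun j => cfs (U j), fun M _ _ R θ hS GR hGR => ?_⟩
    have hUR : ∀ j, ∃ q : Polynomial R, q.map (R.val : R →+* K) = U j := fun j =>
      lift_of_cfs fun s hs => hS s (Finset.mem_biUnion.2 ⟨j, Finset.mem_univ _, hs⟩)
    choose U' hU' using hUR
    have h5 : ∑ j : Fin m, U' j * derivative^[(j : ℕ)] GR = 1 := by
      apply Polynomial.map_injective _ (val_injective R)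
      rw [Polynomial.map_sum, Polynomial.map_one, ← hU]
      refine Finset.sum_congr rfl fun j _ => ?_
      rw [Polynomial.map_mul, hU', ← Polynomial.iterate_derivative_map, hGR]
    have h6 := congrArg (fun p => p.map (θ : R →+* M)) h5
    simp only [Polynomial.map_sum, Polynomial.map_one, Polynomial.map_mul,
      ← Polynomial.iterate_derivative_map] at h6
    refine ⟨fun h0 => ?_, free_of_bezout h6⟩
    rw [h0] at h6
    rw [Finset.sum_eq_zero] at h6
    · exact zero_ne_one h6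
    · intro j _
      rw [Polynomial.iterate_derivative_zero, mul_zero]
  rcases split_of_simple hH hs with h | ⟨t, e, G, hHG, hme, hem, hGt, hGf⟩
  · obtain ⟨S, hS⟩ := hfree H hH h
    refine ⟨S, fun M _ _ R θ hSR HR hHR => ?_⟩
    obtain ⟨h1, h2⟩ := hS M R θ hSR HR hHR
    exact simple_of_free hm h1 h2
  · have hG0 : G ≠ 0 := by
      rintro rfl
      exact hGt eval_zero
    obtain ⟨S, hS⟩ := hfree G hG0 hGf
    refine ⟨S ∪ cfs G ∪ {t, (G.eval t)⁻¹}, fun M _ _ R θ hSR HR hHR => ?_⟩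
    have htR : t ∈ R := hSR t (by simp)
    have hiR : (G.eval t)⁻¹ ∈ R := hSR _ (by simp)
    obtain ⟨GR, hGR⟩ := lift_of_cfs (R := R) (p := G) fun s hs => hSR s (by simp [hs])
    obtain ⟨h1, h2⟩ := hS M R θ (fun s hs => hSR s (by simp [hs])) GR hGR
    have h3 : HR = (X - C (⟨t, htR⟩ : R)) ^ e * GR := by
      apply Polynomial.map_injective _ (val_injective R)
      rw [hHR, Polynomial.map_mul, hGR, Polynomial.map_pow, Polynomial.map_sub,
        Polynomial.map_X, Polynomial.map_C]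
      exact hHG
    rw [h3, Polynomial.map_mul, Polynomial.map_pow, Polynomial.map_sub, Polynomial.map_X,
      Polynomial.map_C]
    refine simple_of_split hm hem ?_ h2
    intro h0
    have h4 : (GR.map (θ : R →+* M)).eval ((θ : R →+* M) ⟨t, htR⟩) =
        (θ : R →+* M) (GR.eval ⟨t, htR⟩) := by
      rw [Polynomial.eval_map, Polynomial.eval₂_at_apply]
    rw [h4] at h0
    have h5 : ((GR.eval ⟨t, htR⟩ : R) : K) = G.eval t := by
      rw [← hGR, Polynomial.eval_map]
      exact (Polynomial.eval₂_at_apply (R.val : R →+* K) (⟨t, htR⟩ : R)).symm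
    have h6 : GR.eval ⟨t, htR⟩ * ⟨(G.eval t)⁻¹, hiR⟩ = 1 := by
      apply Subtype.ext
      change ((GR.eval ⟨t, htR⟩ : R) : K) * (G.eval t)⁻¹ = 1
      rw [h5, mul_inv_cancel₀ hGt]
    have h7 := congrArg (θ : R →+* M) h6
    rw [map_mul, h0, zero_mul, map_one] at h7
    exact zero_ne_one h7

end

end Pool.Agent.Y190.SN
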