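import Pool.Agent.Y190.SN.Simp

/-!
The structure of the subvarieties which are not of general type, for polynomials of any degree.
-/

set_option autoImplicit false

open FF Pool.Agent.W603.LV Pool.Agent.W602.GT Pool.Agent.Y190.BV

namespace Pool.Agent.Y190.SN

variable {k : Type} [Field k] {N : ℕ} {K : Type} [Field K] [Algebra k K] {n m w : ℕ}

section

variable [IsAlgClosed k] [CharZero k]

/-- **The structure theorem.** -/
theorem structure_thm (hm : 2 ≤ m) (hn : n ≤ N) (hN : 4 * n + (n + 1) ^ 2 < 2 * (N + 1))
    {a : Fin (N + 1) → k} (ha : Function.Injective a) {y : Fin (N + 1) → K}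
    (hy : SubVar (buchi a n m) K w y) (hs : Simple m (intp a hn (fun i => y i ^ m)))
    (hgt : ¬ GeneralType k K w) :
    m ≤ n ∧ ∃ (t : K) (z : Fin (N + 1) → K), (∀ i, y i = (algebraMap k K (a i) - t) * z i) ∧
      (∀ l : Rel a (n - m), val z (buchi a (n - m) m l) = 0) ∧
      (∃ i j, i ≠ j ∧ z i ≠ 0 ∧ z j ≠ 0) ∧ Transcendental (coords k z) t ∧
      IntermediateField.adjoin (coords k z) {t} = ⊤ := by
  classical
  obtain ⟨p, hp, hpH⟩ := dichotomy hm hN ha hy hgt hn
  set H := intp a hn (fun i => y i ^ m) with hHd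
  have hev : ∀ i, H.eval (algebraMap k K (a i)) = y i ^ m := intp_eval ha hn m hy.mem
  have hH : H ≠ 0 := by
    intro h0
    apply hy.ne
    funext i
    have h1 := hev i
    rw [h0, Polynomial.eval_zero] at h1
    exact eq_zero_of_pow_eq_zero h1.symm
  have hHdeg : H.natDegree ≤ n := intp_natDegree ha hn _
  -- the polynomial `p` is linear
  have hp1 : p.natDegree = 1 := by
    have h1 := hs p hpH
    have h2 := hp.natDegree_pos
    omega
  obtain ⟨t, ht⟩ : ∃ t : K, p.eval t = 0 := by
    have h1 := Polynomial.exists_root_of_degree_eq_one (p := p)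
      ((Polynomial.degree_eq_iff_natDegree_eq_of_pos one_pos).2 hp1)
    obtain ⟨t, ht⟩ := h1
    exact ⟨t, ht⟩
  obtain ⟨H', hH'⟩ : (Polynomial.X - Polynomial.C t) ^ m ∣ H :=
    (pow_dvd_pow_of_dvd (Polynomial.dvd_iff_isRoot.2 ht) m).trans hpH
  have hH'0 : H' ≠ 0 := by
    rintro rfl
    rw [mul_zero] at hH'
    exact hH hH'
  have hdeg : H'.natDegree + m ≤ n := by
    have h4 := congrArg Polynomial.natDegree hH'
    rw [Polynomial.natDegree_mul (pow_ne_zero _ (Polynomial.X_sub_C_ne_zero t)) hH'0,
      Polynomial.natDegree_pow, Polynomial.natDegree_X_sub_C, mul_one] at h4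
    omega
  have hev' : ∀ i, (algebraMap k K (a i) - t) ^ m * H'.eval (algebraMap k K (a i)) = y i ^ m := by
    intro i
    rw [← hev i, hH', Polynomial.eval_mul, Polynomial.eval_pow, Polynomial.eval_sub,
      Polynomial.eval_X, Polynomial.eval_C]
  obtain ⟨j0, hj0⟩ : ∃ j0, H'.coeff j0 ≠ 0 := by
    by_contra hcon
    push Not at hcon
    exact hH'0 (Polynomial.ext fun j => by rw [hcon j, Polynomial.coeff_zero])
  set S' : Set K := {x | ∃ i j, x = H'.coeff i / H'.coeff j} with hS'
  -- the field is not algebraic over the ratios of the coefficients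
  have hA : ¬ Algebra.IsAlgebraic (Algebra.adjoin k S') K := by
    intro halg
    apply hgt
    obtain ⟨N', rfl⟩ : ∃ N', N = N' + 1 := ⟨N - 1, by omega⟩
    obtain ⟨i0, hi0⟩ : ∃ i0 : Fin (N' + 1 + 1), ∀ i, i ≠ i0 → algebraMap k K (a i) ≠ t := by
      by_cases h : ∃ i0, algebraMap k K (a i0) = t
      · obtain ⟨i0, hi0⟩ := h
        refine ⟨i0, fun i hi h1 => hi (ha ((algebraMap k K).injective ?_))⟩
        rw [h1, hi0]
      · push Not at h
        exact ⟨0, fun i _ => h i⟩
    refine Pool.Agent.Y190.BV.general_of_log (core_rad (n := n - m) (m := m) (N := N') hy.dim hm ?_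
      (fun j => a (i0.succAbove j)) (fun x y hxy => Fin.succAbove_right_injective (ha hxy)) H'
      hH'0 (by omega) halg ?_ ?_)
    · obtain ⟨s, hs⟩ := Nat.exists_eq_add_of_le (by omega : m ≤ n)
      rw [hs, Nat.add_sub_cancel_left]
      rw [hs] at hN
      nlinarith
    · intro j
      have h1 : algebraMap k K (a (i0.succAbove j)) - t ≠ 0 :=
        sub_ne_zero.2 (hi0 _ (Fin.succAbove_ne i0 j))
      refine ⟨y (i0.succAbove j) / (algebraMap k K (a (i0.succAbove j)) - t), ?_⟩
      rw [div_pow, ← hev', mul_div_assoc, mul_div_cancel₀ _ (pow_ne_zero _ h1)]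
    · intro p' hp' hdvd
      have h1 : ((Polynomial.X - Polynomial.C t) * p') ^ m ∣ H := by
        rw [mul_pow, hH']
        exact mul_dvd_mul dvd_rfl hdvd
      have h2 := hs _ h1
      rw [Polynomial.natDegree_mul (Polynomial.X_sub_C_ne_zero t) hp'.ne_zero,
        Polynomial.natDegree_X_sub_C] at h2
      have := hp'.natDegree_pos
      omega
  set E : IntermediateField k K := IntermediateField.adjoin k S' with hE
  set F1 : IntermediateField E K := algebraicClosure E K with hF1
  have hEF : ∀ x ∈ E, x ∈ F1 := fun x hx => F1.algebraMap_mem (⟨x, hx⟩ : E)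
  -- `t` is transcendental
  have hB : Transcendental E t := by
    intro htalg
    apply hA
    have htF : t ∈ F1 := mem_algebraicClosure_iff.2 htalg
    have hpowF : ∀ u, ((Polynomial.X - Polynomial.C t) ^ m).coeff u ∈ F1 := by
      intro u
      have h1 : (Polynomial.X - Polynomial.C t) ^ m =
          ((Polynomial.X - Polynomial.C (⟨t, htF⟩ : F1)) ^ m).map (algebraMap F1 K) := by
        rw [Polynomial.map_pow, Polynomial.map_sub, Polynomial.map_X, Polynomial.map_C]
        rfl
      rw [h1, Polynomial.coeff_map]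
      exact SetLike.coe_mem _
    have hcF : ∀ i, H.coeff i / H'.coeff j0 ∈ F1 := by
      intro i
      rw [hH', Polynomial.coeff_mul, Finset.sum_div]
      refine F1.sum_mem fun x _ => ?_
      rw [mul_div_assoc]
      exact F1.mul_mem (hpowF _) (hEF _ (IntermediateField.subset_adjoin k _ ⟨_, _, rfl⟩))
    have hle : Algebra.adjoin k {x | ∃ i j, x = H.coeff i / H.coeff j} ≤
        (F1.restrictScalars k).toSubalgebra := by
      rw [Algebra.adjoin_le_iff]
      rintro _ ⟨i, j, rfl⟩
      have e : H.coeff i / H.coeff j = (H.coeff i / H'.coeff j0) / (H.coeff j / H'.coeff j0) := by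
        rw [div_div_div_cancel_right₀ hj0]
      rw [e]
      exact F1.div_mem (hcF i) (hcF j)
    have halgH := alg_coeffs (by omega : 1 ≤ m) hy.gen hH hev
    have h2 : Algebra.IsAlgebraic F1 K := by
      let _ : Algebra (Algebra.adjoin k {x | ∃ i j, x = H.coeff i / H.coeff j}) F1 :=
        (Subalgebra.inclusion hle).toRingHom.toAlgebra
      have : IsScalarTower (Algebra.adjoin k {x | ∃ i j, x = H.coeff i / H.coeff j}) F1 K :=
        IsScalarTower.of_algebraMap_eq fun x => rfl
      exact Algebra.IsAlgebraic.extendScalars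
        (R := Algebra.adjoin k {x | ∃ i j, x = H.coeff i / H.coeff j})
        (Subalgebra.inclusion_injective hle)
    have h3 : Algebra.IsAlgebraic E F1 := algebraicClosure.isAlgebraic E K
    have h4 : Algebra.IsAlgebraic E K := Algebra.IsAlgebraic.trans E F1 K
    exact IntermediateField.isAlgebraic_adjoin_iff_top.1 h4
  have hat : ∀ i, algebraMap k K (a i) - t ≠ 0 := by
    intro i h
    apply hB
    have h1 : t = algebraMap E K (algebraMap k E (a i)) := by
      rw [← IsScalarTower.algebraMap_apply k E K]
      exact (sub_eq_zero.1 h).symm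
    rw [h1]
    exact isAlgebraic_algebraMap _
  set z : Fin (N + 1) → K := fun i => y i / (algebraMap k K (a i) - t) with hz
  have hyz : ∀ i, y i = (algebraMap k K (a i) - t) * z i := by
    intro i
    simp only [hz]
    have := hat i
    field_simp
  have hzm : ∀ i, H'.eval (algebraMap k K (a i)) = z i ^ m := by
    intro i
    simp only [hz]
    rw [div_pow, ← hev', mul_div_assoc, mul_div_cancel₀ _ (pow_ne_zero _ (hat i))]
  have hz0 : ∃ i j, i ≠ j ∧ z i ≠ 0 ∧ z j ≠ 0 := by
    obtain ⟨i, j, hij, hi, hj⟩ := two_nonzero ha (d := H'.natDegree) (by omega) hH'0 le_rfl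
    refine ⟨i, j, hij, ?_, ?_⟩
    · intro h0
      rw [hzm, h0, zero_pow (by omega)] at hi
      exact hi rfl
    · intro h0
      rw [hzm, h0, zero_pow (by omega)] at hj
      exact hj rfl
  have hHE : ∀ i, H'.eval (algebraMap k K (a i)) / H'.coeff j0 ∈ E := by
    intro i
    rw [Polynomial.eval_eq_sum_range, Finset.sum_div]
    refine E.sum_mem fun j _ => ?_
    have e : H'.coeff j * algebraMap k K (a i) ^ j / H'.coeff j0 =
        (H'.coeff j / H'.coeff j0) * algebraMap k K (a i ^ j) := by
      rw [map_pow]; ring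
    rw [e]
    exact E.mul_mem (IntermediateField.subset_adjoin k _ ⟨j, j0, rfl⟩) (E.algebraMap_mem _)
  have hzF : ∀ i j, z j ≠ 0 → z i / z j ∈ F1 := by
    intro i j hj
    apply mem_algebraicClosure_iff.2
    have h3 : (z i / z j) ^ m ∈ E := by
      have e : (z i / z j) ^ m = (H'.eval (algebraMap k K (a i)) / H'.coeff j0) /
          (H'.eval (algebraMap k K (a j)) / H'.coeff j0) := by
        rw [hzm i, hzm j, div_pow, div_div_div_cancel_right₀ hj0]
      rw [e]
      exact E.div_mem (hHE i) (hHE j)
    have h4 : IsAlgebraic E ((z i / z j) ^ m) := isAlgebraic_algebraMap (⟨_, h3⟩ : E)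
    exact IsAlgebraic.of_pow (by omega) h4
  have hle : coords k z ≤ F1.restrictScalars k := by
    unfold coords
    rw [IntermediateField.adjoin_le_iff]
    rintro _ ⟨i, j, hj, rfl⟩
    exact hzF i j hj
  refine ⟨by omega, t, z, hyz, ?_, hz0, ?_, ?_⟩
  · exact fun l => mem_of_poly a (n - m) m z H' (by omega) hzm l
  · intro htalg
    apply hB
    have h1 : IsAlgebraic F1 t := by
      let _ : Algebra (coords k z) F1 := (IntermediateField.inclusion hle).toRingHom.toAlgebra
      have : IsScalarTower (coords k z) F1 K := IsScalarTower.of_algebraMap_eq fun x => rfl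
      exact htalg.extendScalars (IntermediateField.inclusion hle).toRingHom.injective
    have h3 : Algebra.IsAlgebraic E F1 := algebraicClosure.isAlgebraic E K
    exact h1.restrictScalars E
  · have h1 : (⊤ : IntermediateField k K) ≤
        (IntermediateField.adjoin (coords k z) {t}).restrictScalars k := by
      rw [← hy.gen]
      conv_lhs => unfold coords
      rw [IntermediateField.adjoin_le_iff]
      rintro _ ⟨i, j, hj, rfl⟩
      have hzj : z j ≠ 0 := by
        intro h0
        rw [hyz j, h0, mul_zero] at hj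
        exact hj rfl
      have ht : t ∈ IntermediateField.adjoin (coords k z) {t} :=
        IntermediateField.mem_adjoin_simple_self _ t
      have hc : ∀ c : k, algebraMap k K c ∈ IntermediateField.adjoin (coords k z) {t} := by
        intro c
        have := (IntermediateField.adjoin (coords k z) {t}).algebraMap_mem
          (algebraMap k (coords k z) c)
        rwa [← IsScalarTower.algebraMap_apply k (coords k z) K] at this
      have hr : z i / z j ∈ IntermediateField.adjoin (coords k z) {t} :=
        (IntermediateField.adjoin (coords k z) {t}).algebraMap_mem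
          (⟨z i / z j, IntermediateField.subset_adjoin k _ ⟨i, j, hzj, rfl⟩⟩ : coords k z)
      have e : y i / y j = (algebraMap k K (a i) - t) / (algebraMap k K (a j) - t) *
          (z i / z j) := by
        rw [hyz i, hyz j, div_mul_div_comm]
      rw [e]
      exact mul_mem (div_mem (sub_mem (hc _) ht) (sub_mem (hc _) ht)) hr
    rw [eq_top_iff]
    intro x _
    exact h1 (IntermediateField.mem_top (x := x))

end

end Pool.Agent.Y190.SN
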